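import Pool.Agent.Y522.Basic

/-!
# Asymptotically affine germs
-/

set_option autoImplicit false

open Set Filter Topology Metric Function MeasureTheory
open scoped Manifold ContDiff

noncomputable section

namespace Pool.Agent.Y247.AA

open Pool.Agent.Y522

variable {n : ℕ}

/-- fourth root -/
def sg (r : ℝ) : ℝ := √(√r)

theorem sg_nonneg (r : ℝ) : 0 ≤ sg r := Real.sqrt_nonneg _

theorem sg_pos {r : ℝ} (hr : 0 < r) : 0 < sg r := Real.sqrt_pos.2 (Real.sqrt_pos.2 hr)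

theorem sg_mono {r r' : ℝ} (h : r ≤ r') : sg r ≤ sg r' := Real.sqrt_le_sqrt (Real.sqrt_le_sqrt h)

theorem sg_pow {r : ℝ} (hr : 0 ≤ r) : sg r ^ 4 = r := by
  unfold sg
  have h1 : √(√r) ^ 2 = √r := Real.sq_sqrt (Real.sqrt_nonneg _)
  have h2 : √r ^ 2 = r := Real.sq_sqrt hr
  calc √(√r) ^ 4 = (√(√r) ^ 2) ^ 2 := by ring
    _ = r := by rw [h1, h2]

theorem sg_le_one {r : ℝ} (h : r ≤ 1) : sg r ≤ 1 := by
  have h3 := sg_mono h
  have h4 : sg 1 = 1 := by unfold sg; simp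
  rwa [h4] at h3

theorem sg_lt {r τ : ℝ} (hr : 0 ≤ r) (hτ : 0 ≤ τ) (h : r < τ ^ 4) : sg r < τ := by
  by_contra h1
  rw [not_lt] at h1
  have := pow_le_pow_left₀ hτ h1 4
  rw [sg_pow hr] at this
  linarith

theorem sg_two {r : ℝ} (hr : 0 ≤ r) : 7 / 6 * sg r ≤ sg (2 * r) := by
  by_contra h
  rw [not_le] at h
  have h1 := pow_lt_pow_left₀ h (sg_nonneg _) (by norm_num : 4 ≠ 0)
  rw [sg_pow (by linarith), mul_pow, sg_pow hr] at h1
  norm_num at h1
  linarith

/-- `G` is affine up to the relative error `δ` at the point `p` and the scale `r`. -/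
def Aff (G : E n → E n) (δ : ℝ) (p : E n) (r : ℝ) : Prop :=
  ∃ (L : E n →L[ℝ] E n) (m : ℝ), 0 < m ∧ (∀ v, m * ‖v‖ ≤ ‖L v‖) ∧
    ∀ q, ‖q - p‖ ≤ r → ‖G q - G p - L (q - p)‖ ≤ δ * m * r

/-- `G` is asymptotically affine at `z`. -/
def AAg (G : E n → E n) (z : E n) : Prop :=
  ∀ δ : ℝ, 0 < δ → ∃ ρ : ℝ, 0 < ρ ∧ ∀ p, ‖p - z‖ < ρ → ∀ r : ℝ, 0 < r → r < ρ → Aff G δ p r

theorem AAg.congr {G G' : E n → E n} {z : E n} (h : AAg G z) (hG : G' =ᶠ[𝓝 z] G) : AAg G' z := by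
  obtain ⟨ε, hε, hb⟩ := Metric.eventually_nhds_iff_ball.1 hG
  have hb' : ∀ y, ‖y - z‖ < ε → G' y = G y := fun y hy => hb y (by rwa [mem_ball, dist_eq_norm])
  intro δ hδ
  obtain ⟨ρ, hρ, H⟩ := h δ hδ
  refine ⟨min ρ (ε / 2), lt_min hρ (by linarith), fun p hp r hr0 hr => ?_⟩
  obtain ⟨L, m, hm, h1, h3⟩ := H p (hp.trans_le (min_le_left _ _)) r hr0
    (hr.trans_le (min_le_left _ _))
  have hp2 := hp.trans_le (min_le_right _ _)
  have hr2 := hr.trans_le (min_le_right _ _)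
  refine ⟨L, m, hm, h1, fun q hq => ?_⟩
  rw [hb' p (by linarith), hb' q ?_]
  · exact h3 q hq
  · calc ‖q - z‖ = ‖(q - p) + (p - z)‖ := by congr 1; abel
      _ ≤ ‖q - p‖ + ‖p - z‖ := norm_add_le _ _
      _ < ε := by linarith

theorem AAg.id (z : E n) : AAg (fun y => y) z := by
  intro δ hδ
  refine ⟨1, one_pos, fun p _ r hr0 hr1 => ?_⟩
  refine ⟨ContinuousLinearMap.id ℝ (E n), 1, one_pos, fun v => by simp, fun q _ => ?_⟩
  have : q - p - (ContinuousLinearMap.id ℝ (E n)) (q - p) = 0 := by simp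
  rw [this, norm_zero]
  positivity

/-- comparison of the linear parts at two scales -/
theorem comparison {G : E n → E n} {δ r r' m m' : ℝ} {p p' : E n} {L L' : E n →L[ℝ] E n}
    (h : ∀ q, ‖q - p‖ ≤ r → ‖G q - G p - L (q - p)‖ ≤ δ * m * r)
    (h' : ∀ q, ‖q - p'‖ ≤ r' → ‖G q - G p' - L' (q - p')‖ ≤ δ * m' * r')
    (hr' : 0 < r') (hpp : ‖p' - p‖ + r' ≤ r) (v : E n) :
    ‖L v - L' v‖ * r' ≤ (2 * (δ * m * r) + δ * m' * r') * ‖v‖ := by
  rcases eq_or_ne v 0 with rfl | hv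
  · simp
  have hv0 : 0 < ‖v‖ := norm_pos_iff.2 hv
  set t : ℝ := r' / ‖v‖ with ht
  have ht0 : 0 < t := by positivity
  have hu : ‖t • v‖ = r' := by
    rw [norm_smul, Real.norm_of_nonneg ht0.le, ht]
    field_simp
  have h1 := h (p' + t • v) (by
    calc ‖p' + t • v - p‖ = ‖(p' - p) + t • v‖ := by congr 1; abel
      _ ≤ ‖p' - p‖ + ‖t • v‖ := norm_add_le _ _
      _ ≤ r := by rw [hu]; exact hpp)
  have h2 := h p' (by linarith)
  have h3 := h' (p' + t • v) (by rw [add_sub_cancel_left, hu])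
  rw [add_sub_cancel_left] at h3
  have e : L (t • v) - L' (t • v) = (G (p' + t • v) - G p' - L' (t • v)) -
      ((G (p' + t • v) - G p - L (p' + t • v - p)) - (G p' - G p - L (p' - p))) := by
    have e1 : p' + t • v - p = (p' - p) + t • v := by abel
    rw [e1, map_add]
    abel
  have h4 : ‖L (t • v) - L' (t • v)‖ ≤ δ * m' * r' + (δ * m * r + δ * m * r) := by
    rw [e]
    refine (norm_sub_le _ _).trans (add_le_add h3 ?_)
    exact (norm_sub_le _ _).trans (add_le_add h1 h2)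
  rw [map_smul, map_smul, ← smul_sub, norm_smul, Real.norm_of_nonneg ht0.le] at h4
  have h5 : t * ‖v‖ = r' := by
    rw [ht]
    field_simp
  calc ‖L v - L' v‖ * r' = (t * ‖L v - L' v‖) * ‖v‖ := by rw [← h5]; ring
    _ ≤ (δ * m' * r' + (δ * m * r + δ * m * r)) * ‖v‖ := by gcongr
    _ = _ := by ring

theorem comparison' {G : E n → E n} {δ r r' m m' κ : ℝ} {p p' : E n} {L L' : E n →L[ℝ] E n}
    (hδ : 0 ≤ δ) (hm : 0 < m) (hL : ∀ v, m * ‖v‖ ≤ ‖L v‖) (hL' : ∀ v, m' * ‖v‖ ≤ ‖L' v‖)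
    (h : ∀ q, ‖q - p‖ ≤ r → ‖G q - G p - L (q - p)‖ ≤ δ * m * r)
    (h' : ∀ q, ‖q - p'‖ ≤ r' → ‖G q - G p' - L' (q - p')‖ ≤ δ * m' * r')
    (hr' : 0 < r') (hpp : ‖p' - p‖ + r' ≤ r) (hκ : r ≤ κ * r') (v : E n) :
    ‖L v - L' v‖ ≤ 2 * κ * δ * ‖L v‖ + δ * ‖L' v‖ := by
  have h1 := comparison h h' hr' hpp v
  have hκ0 : 0 ≤ κ * r' := by
    have := norm_nonneg (p' - p)
    linarith
  have h2 : (2 * (δ * m * r) + δ * m' * r') * ‖v‖ ≤ (2 * κ * δ * ‖L v‖ + δ * ‖L' v‖) * r' := by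
    have h3 : δ * m * r * ‖v‖ ≤ κ * δ * ‖L v‖ * r' := by
      calc δ * m * r * ‖v‖ = δ * r * (m * ‖v‖) := by ring
        _ ≤ δ * (κ * r') * ‖L v‖ := by
          apply mul_le_mul _ (hL v) (by positivity) (by positivity)
          gcongr
        _ = _ := by ring
    have h4 : δ * m' * r' * ‖v‖ ≤ δ * ‖L' v‖ * r' := by
      calc δ * m' * r' * ‖v‖ = δ * r' * (m' * ‖v‖) := by ring
        _ ≤ δ * r' * ‖L' v‖ := by
          apply mul_le_mul_of_nonneg_left (hL' v) (by positivity)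
        _ = _ := by ring
    nlinarith
  exact le_of_mul_le_mul_right (h1.trans h2) hr'

/-- the linear parts degenerate at most like the power `1/4` of the scale -/
theorem growth {G : E n → E n} {z : E n} (h : AAg G z) : ∃ c C ρ : ℝ, 0 < c ∧ 0 < C ∧ 0 < ρ ∧
    ∀ p, ‖p - z‖ < ρ → ∀ r : ℝ, 0 < r → r < ρ → ∀ (L : E n →L[ℝ] E n) (m : ℝ), 0 < m →
      (∀ v, m * ‖v‖ ≤ ‖L v‖) → (∀ q, ‖q - p‖ ≤ r → ‖G q - G p - L (q - p)‖ ≤ 1 / 60 * m * r) →
      ∀ v, c * sg r * ‖v‖ ≤ ‖L v‖ ∧ ‖L v‖ * sg r ≤ C * ‖v‖ := by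
  obtain ⟨ρ₀, hρ₀, H⟩ := h (1 / 60) (by norm_num)
  obtain ⟨ρ, hρ, hρ1, hρ2⟩ : ∃ ρ : ℝ, 0 < ρ ∧ 4 * ρ ≤ ρ₀ ∧ ρ ≤ 1 := by
    refine ⟨min (ρ₀ / 4) 1, lt_min (by linarith) one_pos, ?_, min_le_right _ _⟩
    have := min_le_left (ρ₀ / 4) 1
    linarith
  obtain ⟨Lz, mz, hmz, hz1, hz2⟩ := H z (by simpa using hρ₀) (2 * ρ) (by linarith) (by linarith)
  refine ⟨mz / 2, 2 * ‖Lz‖ + 1, ρ, by linarith, by positivity, hρ, ?_⟩
  have key : ∀ k : ℕ, ∀ p, ‖p - z‖ < ρ → ∀ r : ℝ, ρ / 2 ^ k ≤ r → r < ρ →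
      ∀ (L : E n →L[ℝ] E n) (m : ℝ), 0 < m → (∀ v, m * ‖v‖ ≤ ‖L v‖) →
      (∀ q, ‖q - p‖ ≤ r → ‖G q - G p - L (q - p)‖ ≤ 1 / 60 * m * r) →
      ∀ v, mz / 2 * sg r * ‖v‖ ≤ ‖L v‖ ∧ ‖L v‖ * sg r ≤ (2 * ‖Lz‖ + 1) * ‖v‖ := by
    intro k
    induction k with
    | zero =>
      intro p _ r h1 h2
      rw [pow_zero, div_one] at h1
      linarith
    | succ k ih =>
      intro p hp r h1 h2 L m hm hL hLe v
      have hr : 0 < r := lt_of_lt_of_le (by positivity) h1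
      have hs0 := sg_nonneg r
      have hs1 : sg r ≤ 1 := sg_le_one (by linarith)
      have hv := norm_nonneg v
      rcases le_or_gt (ρ / 2) r with h3 | h3
      · have h4 := comparison' (κ := 4) (by norm_num) hmz hz1 hL hz2 hLe hr (by linarith)
          (by linarith) v
        have h5 := norm_sub_norm_le (Lz v) (L v)
        have h6 := norm_sub_norm_le (L v) (Lz v)
        rw [norm_sub_rev] at h6
        have h7 := hz1 v
        have h8 := Lz.le_opNorm v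
        have h9 := norm_nonneg (L v)
        refine ⟨?_, ?_⟩
        · have : mz / 2 * sg r * ‖v‖ ≤ mz / 2 * 1 * ‖v‖ := by gcongr
          linarith
        · have : ‖L v‖ * sg r ≤ ‖L v‖ * 1 := by gcongr
          linarith
      · obtain ⟨L₂, m₂, hm₂, h4, h5⟩ := H p (by linarith) (2 * r) (by linarith) (by linarith)
        have h6 := ih p hp (2 * r) (by
          rw [pow_succ, div_le_iff₀ (by positivity)] at h1
          rw [div_le_iff₀ (by positivity)]
          linarith) (by linarith) L₂ m₂ hm₂ h4 h5 v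
        have h7 := comparison' (κ := 2) (by norm_num) hm₂ h4 hL h5 hLe hr
          (by rw [sub_self, norm_zero]; linarith) le_rfl v
        have h8 := norm_sub_norm_le (L₂ v) (L v)
        have h9 := norm_sub_norm_le (L v) (L₂ v)
        rw [norm_sub_rev] at h9
        have h10 := sg_two hr.le
        have h11 := norm_nonneg (L v)
        have h12 := norm_nonneg (L₂ v)
        have h13 : ‖L₂ v‖ ≤ 7 / 6 * ‖L v‖ := by linarith
        have h14 : ‖L v‖ ≤ 7 / 6 * ‖L₂ v‖ := by linarith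
        refine ⟨?_, ?_⟩
        · have : mz / 2 * (7 / 6 * sg r) * ‖v‖ ≤ mz / 2 * sg (2 * r) * ‖v‖ := by gcongr
          linarith [h6.1]
        · calc ‖L v‖ * sg r ≤ 7 / 6 * ‖L₂ v‖ * sg r := by gcongr
            _ = ‖L₂ v‖ * (7 / 6 * sg r) := by ring
            _ ≤ ‖L₂ v‖ * sg (2 * r) := by gcongr
            _ ≤ _ := h6.2
  intro p hp r hr0 hr L m hm hL hLe v
  obtain ⟨k, hk⟩ := exists_pow_lt_of_lt_one (show 0 < r / ρ by positivity)
    (by norm_num : (1 / 2 : ℝ) < 1)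
  refine key k p hp r ?_ hr L m hm hL hLe v
  rw [lt_div_iff₀ hρ, one_div, inv_pow] at hk
  rw [div_eq_mul_inv, mul_comm]
  exact hk.le

/-- second order estimate and bounds for the derivative of a local diffeomorphism -/
theorem taylor2 {T : E n → E n} {w : E n} (hT : LD n T w) : ∃ a b C ε : ℝ, 1 ≤ a ∧ 1 ≤ b ∧ 0 ≤ C ∧
    0 < ε ∧ (∀ y y', ‖y - w‖ < ε → ‖y' - w‖ < ε →
      ‖T y - T y' - fderiv ℝ T y' (y - y')‖ ≤ C * ‖y - y'‖ ^ 2) ∧
    (∀ y, ‖y - w‖ < ε → ∀ v, ‖fderiv ℝ T y v‖ ≤ a * ‖v‖) ∧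
    (∀ y, ‖y - w‖ < ε → ∀ v, ‖v‖ ≤ b * ‖fderiv ℝ T y v‖) := by
  obtain ⟨A, hA⟩ := hT.exists_equiv
  have hev : ∀ᶠ y in 𝓝 w, LD n T y := hT.eventually
  have hd : ContDiffAt ℝ 1 (fderiv ℝ T) w :=
    (hT.contDiffAt.of_le (show (2 : WithTop ℕ∞) ≤ ∞ from WithTop.coe_le_coe.2 le_top)).fderiv_right (by norm_num)
  obtain ⟨K, t, ht, hK⟩ := hd.exists_lipschitzOnWith
  set b₀ : ℝ := ‖(A.symm : E n →L[ℝ] E n)‖ + 1 with hb
  have hb1 : 1 ≤ b₀ := by
    have := norm_nonneg (A.symm : E n →L[ℝ] E n)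
    linarith
  have hAv' : ∀ v, ‖v‖ ≤ b₀ * ‖A v‖ := by
    intro v
    have h1 := (A.symm : E n →L[ℝ] E n).le_opNorm (A v)
    have h2 : (A.symm : E n →L[ℝ] E n) (A v) = v := by simp
    rw [h2] at h1
    have := norm_nonneg (A v)
    nlinarith
  have hc : ∀ᶠ y in 𝓝 w, ‖fderiv ℝ T y - fderiv ℝ T w‖ < 1 / (2 * b₀) := by
    have h1 : ContinuousAt (fun y => ‖fderiv ℝ T y - fderiv ℝ T w‖) w :=
      (hd.continuousAt.sub continuousAt_const).norm
    apply h1.eventually_lt_const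
    change ‖fderiv ℝ T w - fderiv ℝ T w‖ < _
    rw [sub_self, norm_zero]
    positivity
  obtain ⟨ε, hε, hb⟩ := Metric.eventually_nhds_iff_ball.1 (hev.and (hc.and ht))
  have hmem : ∀ y, ‖y - w‖ < ε → y ∈ ball w ε := fun y hy => by rwa [mem_ball, dist_eq_norm]
  refine ⟨‖(A : E n →L[ℝ] E n)‖ + 1, 2 * b₀, K, ε, ?_, by linarith, K.coe_nonneg, hε, ?_, ?_, ?_⟩
  · have := norm_nonneg (A : E n →L[ℝ] E n)
    linarith
  · intro y y' hy hy'
    have hseg : segment ℝ y' y ⊆ ball w ε := (convex_ball w ε).segment_subset (hmem y' hy')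
      (hmem y hy)
    have h1 := (convex_segment y' y).norm_image_sub_le_of_norm_hasFDerivWithin_le' (𝕜 := ℝ)
      (f := T) (f' := fderiv ℝ T) (φ := fderiv ℝ T y') (C := K * ‖y - y'‖)
      (fun x hx => ((hb x (hseg hx)).1.contDiffAt.differentiableAt
        (by simp)).hasFDerivAt.hasFDerivWithinAt)
      (fun x hx => ?_) (left_mem_segment ℝ y' y) (right_mem_segment ℝ y' y)
    · refine h1.trans (le_of_eq ?_)
      ring
    · have h2 := hK.dist_le_mul x (hb x (hseg hx)).2.2 y' (hb y' (hmem y' hy')).2.2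
      rw [dist_eq_norm, dist_eq_norm] at h2
      refine h2.trans ?_
      apply mul_le_mul_of_nonneg_left _ K.coe_nonneg
      obtain ⟨α, β, hα, hβ, hαβ, rfl⟩ := hx
      have h3 : α • y' + β • y - y' = β • (y - y') := by
        have : α = 1 - β := by linarith
        rw [this]
        module
      rw [h3, norm_smul, Real.norm_of_nonneg hβ]
      have := norm_nonneg (y - y')
      nlinarith
  · intro y hy v
    have h1 := (hb y (hmem y hy)).2.1
    rw [hA.fderiv] at h1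
    have h2 : ‖fderiv ℝ T y‖ ≤ ‖(A : E n →L[ℝ] E n)‖ + 1 := by
      have h3 : fderiv ℝ T y = (A : E n →L[ℝ] E n) + (fderiv ℝ T y - (A : E n →L[ℝ] E n)) := by abel
      rw [h3]
      refine (norm_add_le _ _).trans ?_
      have h4 : 1 / (2 * b₀) ≤ 1 := by
        rw [div_le_one (by positivity)]
        linarith
      linarith
    exact (ContinuousLinearMap.le_opNorm _ _).trans (mul_le_mul_of_nonneg_right h2 (norm_nonneg v))
  · intro y hy v
    have h1 := (hb y (hmem y hy)).2.1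
    rw [hA.fderiv] at h1
    have h2 : ‖A v‖ ≤ ‖fderiv ℝ T y v‖ + 1 / (2 * b₀) * ‖v‖ := by
      have h3 : A v = fderiv ℝ T y v - (fderiv ℝ T y - (A : E n →L[ℝ] E n)) v := by
        simp
      rw [h3]
      refine (norm_sub_le _ _).trans ?_
      gcongr
      exact (ContinuousLinearMap.le_opNorm _ _).trans
        (mul_le_mul_of_nonneg_right h1.le (norm_nonneg v))
    have h5 := hAv' v
    have h6 : b₀ * ‖A v‖ ≤ b₀ * ‖fderiv ℝ T y v‖ + 1 / 2 * ‖v‖ := by
      calc b₀ * ‖A v‖ ≤ b₀ * (‖fderiv ℝ T y v‖ + 1 / (2 * b₀) * ‖v‖) := by gcongr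
        _ = b₀ * ‖fderiv ℝ T y v‖ + 1 / 2 * ‖v‖ := by field_simp
    linarith

theorem near {p q y : E n} {a b : ℝ} (h1 : ‖y - q‖ ≤ a) (h2 : ‖q - p‖ ≤ b) : ‖y - p‖ ≤ a + b := by
  calc ‖y - p‖ = ‖(y - q) + (q - p)‖ := by congr 1; abel
    _ ≤ ‖y - q‖ + ‖q - p‖ := norm_add_le _ _
    _ ≤ a + b := add_le_add h1 h2

/-- composition with a local diffeomorphism on the right -/
theorem AAg.comp {G T : E n → E n} {w : E n} (h : AAg G (T w)) (hT : LD n T w) :
    AAg (fun y => G (T y)) w := by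
  obtain ⟨a, b, C, ε, ha1, hb1, hC, hε, happ, hup, hlow⟩ := taylor2 hT
  obtain ⟨c₁, C₁, ρ₁, hc₁, hC₁, hρ₁, hgr⟩ := growth h
  intro δ hδ
  obtain ⟨ε₁, hε₁, hε₁ε, hε₁C⟩ : ∃ ε₁ : ℝ, 0 < ε₁ ∧ ε₁ ≤ ε ∧ C * ε₁ ≤ a := by
    refine ⟨min ε (a / (C + 1)), lt_min hε (by positivity), min_le_left _ _, ?_⟩
    have h1 : min ε (a / (C + 1)) ≤ a / (C + 1) := min_le_right _ _
    calc C * min ε (a / (C + 1)) ≤ (C + 1) * (a / (C + 1)) := by
          apply mul_le_mul (by linarith) h1 _ (by linarith)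
          exact (lt_min hε (by positivity)).le
      _ = a := by field_simp
  have hTl : ∀ y y', ‖y - w‖ < ε₁ → ‖y' - w‖ < ε₁ → ‖T y - T y'‖ ≤ 3 * a * ‖y - y'‖ := by
    intro y y' hy hy'
    have h1 := happ y y' (by linarith) (by linarith)
    have h3 := hup y' (by linarith) (y - y')
    have h2 : T y - T y' = (T y - T y' - fderiv ℝ T y' (y - y')) + fderiv ℝ T y' (y - y') := by
      abel
    rw [h2]
    refine (norm_add_le _ _).trans ?_
    have h5 : ‖y - y'‖ ≤ 2 * ε₁ := by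
      rw [norm_sub_rev] at hy'
      have := near hy.le hy'.le
      linarith
    have h6 : C * ‖y - y'‖ ^ 2 ≤ 2 * a * ‖y - y'‖ := by
      calc C * ‖y - y'‖ ^ 2 = C * ‖y - y'‖ * ‖y - y'‖ := by ring
        _ ≤ C * (2 * ε₁) * ‖y - y'‖ := by gcongr
        _ = 2 * (C * ε₁) * ‖y - y'‖ := by ring
        _ ≤ 2 * a * ‖y - y'‖ := by gcongr
    linarith
  obtain ⟨ρ, hρ, H⟩ := h (min (1 / 60) (δ / (6 * a * b))) (lt_min (by norm_num) (by positivity))
  obtain ⟨τ, hτ, hτ1, hτ2⟩ : ∃ τ : ℝ, 0 < τ ∧ τ ≤ 1 ∧ 2 * b * C₁ * C * τ ≤ δ * c₁ := by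
    refine ⟨min 1 (δ * c₁ / (2 * b * C₁ * C + 1)), lt_min one_pos (by positivity),
      min_le_left _ _, ?_⟩
    calc 2 * b * C₁ * C * min 1 (δ * c₁ / (2 * b * C₁ * C + 1))
        ≤ (2 * b * C₁ * C + 1) * (δ * c₁ / (2 * b * C₁ * C + 1)) := by
          apply mul_le_mul (by linarith) (min_le_right _ _) _ (by positivity)
          exact (lt_min one_pos (by positivity)).le
      _ = δ * c₁ := by field_simp
  refine ⟨min (min (ε₁ / 2) (min ρ ρ₁ / (3 * a))) (τ ^ 4), lt_min (lt_min (by linarith)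
    (div_pos (lt_min hρ hρ₁) (by positivity))) (by positivity), fun p hp r hr0 hr => ?_⟩
  have hp1 := (hp.trans_le (min_le_left _ _)).trans_le (min_le_left _ _)
  have hp2 := (hp.trans_le (min_le_left _ _)).trans_le (min_le_right _ _)
  have hr1 := (hr.trans_le (min_le_left _ _)).trans_le (min_le_left _ _)
  have hr2 := (hr.trans_le (min_le_left _ _)).trans_le (min_le_right _ _)
  have hr3 := hr.trans_le (min_le_right _ _)
  have e1 : 3 * a * r < min ρ ρ₁ := by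
    rw [lt_div_iff₀ (by positivity)] at hr2
    linarith
  have e2 : ‖T p - T w‖ < min ρ ρ₁ := by
    have h1 := hTl p w (by linarith) (by simpa using hε₁)
    rw [lt_div_iff₀ (by positivity)] at hp2
    linarith
  obtain ⟨L, m, hm, h1, h3⟩ := H (T p) (e2.trans_le (min_le_left _ _)) (3 * a * r) (by positivity)
    (e1.trans_le (min_le_left _ _))
  have hR : 0 < 3 * a * r := by positivity
  have h3a : ∀ q, ‖q - T p‖ ≤ 3 * a * r → ‖G q - G (T p) - L (q - T p)‖ ≤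
      1 / 60 * m * (3 * a * r) := fun q hq =>
    (h3 q hq).trans (by gcongr; exact min_le_left _ _)
  have h3b : ∀ q, ‖q - T p‖ ≤ 3 * a * r → ‖G q - G (T p) - L (q - T p)‖ ≤
      δ / (6 * a * b) * m * (3 * a * r) := fun q hq =>
    (h3 q hq).trans (by gcongr; exact min_le_right _ _)
  have hg := hgr (T p) (e2.trans_le (min_le_right _ _)) (3 * a * r) hR
    (e1.trans_le (min_le_right _ _)) L m hm h1 h3a
  obtain ⟨s, hs⟩ : ∃ s, s = sg (3 * a * r) := ⟨_, rfl⟩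
  rw [← hs] at hg
  have hs0 : 0 < s := hs ▸ sg_pos hR
  have hrs : r = sg r ^ 4 := (sg_pow hr0.le).symm
  have hsr0 := sg_pos hr0
  have hsr : sg r ≤ s := by
    rw [hs]
    apply sg_mono
    nlinarith
  have hsτ : sg r < τ := sg_lt hr0.le hτ.le hr3
  set m₁ : ℝ := max m (c₁ * s) with hm₁
  have hm₁0 : 0 < m₁ := hm.trans_le (le_max_left _ _)
  have hL₁ : ∀ v, m₁ * ‖v‖ ≤ ‖L v‖ := by
    intro v
    rw [hm₁, max_mul_of_nonneg _ _ (norm_nonneg v)]
    exact max_le (h1 v) (hg v).1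
  refine ⟨L.comp (fderiv ℝ T p), m₁ / b, by positivity, fun v => ?_, fun q hq => ?_⟩
  · have h4 := hL₁ (fderiv ℝ T p v)
    have h5 := hlow p (by linarith) v
    calc m₁ / b * ‖v‖ ≤ m₁ / b * (b * ‖fderiv ℝ T p v‖) := by gcongr
      _ = m₁ * ‖fderiv ℝ T p v‖ := by field_simp
      _ ≤ _ := h4
  · have hq' : ‖q - w‖ < ε₁ := by
      have := near hq hp1.le
      calc ‖q - w‖ = ‖(q - p) + (p - w)‖ := by congr 1; abel
        _ ≤ ‖q - p‖ + ‖p - w‖ := norm_add_le _ _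
        _ < ε₁ := by linarith
    have h4 := hTl q p hq' (by linarith)
    have h5 := h3b (T q) (h4.trans (by gcongr))
    have h6 := happ q p (by linarith) (by linarith)
    have e3 : G (T q) - G (T p) - (L.comp (fderiv ℝ T p)) (q - p) =
        (G (T q) - G (T p) - L (T q - T p)) + L (T q - T p - fderiv ℝ T p (q - p)) := by
      rw [map_sub L (T q - T p)]
      simp only [ContinuousLinearMap.comp_apply]
      abel
    rw [e3]
    refine (norm_add_le _ _).trans ?_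
    have h7 : ‖L (T q - T p - fderiv ℝ T p (q - p))‖ ≤ δ / 2 * (m₁ / b) * r := by
      have h8 := (hg (T q - T p - fderiv ℝ T p (q - p))).2
      have h9 : C₁ * ‖T q - T p - fderiv ℝ T p (q - p)‖ ≤ C₁ * (C * r ^ 2) := by
        gcongr
        exact h6.trans (by gcongr)
      have h10 : C₁ * (C * r ^ 2) ≤ (δ / 2 * (m₁ / b) * r) * s := by
        have h11 : 2 * b * C₁ * C * r ≤ δ * c₁ * sg r ^ 2 := by
          calc 2 * b * C₁ * C * r = 2 * b * C₁ * C * sg r ^ 4 := by rw [← hrs]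
            _ = (2 * b * C₁ * C * sg r) * sg r * sg r ^ 2 := by ring
            _ ≤ (2 * b * C₁ * C * τ) * 1 * sg r ^ 2 := by
              gcongr
              linarith
            _ ≤ (δ * c₁) * 1 * sg r ^ 2 := by gcongr
            _ = _ := by ring
        have h12 : δ * c₁ * sg r ^ 2 ≤ δ * m₁ * s := by
          calc δ * c₁ * sg r ^ 2 ≤ δ * c₁ * s ^ 2 := by gcongr
            _ = δ * (c₁ * s) * s := by ring
            _ ≤ δ * m₁ * s := by
              gcongr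
              exact le_max_right _ _
        have h13 : (2 * b * C₁ * C * r) * r ≤ (δ * m₁ * s) * r :=
          mul_le_mul_of_nonneg_right (h11.trans h12) hr0.le
        have e4 : (δ / 2 * (m₁ / b) * r) * s = (δ * m₁ * s) * r / (2 * b) := by
          field_simp
        rw [e4, le_div_iff₀ (by positivity)]
        linarith
      exact le_of_mul_le_mul_right (h8.trans (h9.trans h10)) hs0
    have h8 : δ / (6 * a * b) * m * (3 * a * r) ≤ δ / 2 * (m₁ / b) * r := by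
      calc δ / (6 * a * b) * m * (3 * a * r) = δ / 2 * (m / b) * r := by
            field_simp
            ring
        _ ≤ _ := by
            gcongr
            exact le_max_left _ _
    calc _ ≤ δ / 2 * (m₁ / b) * r + δ / 2 * (m₁ / b) * r := add_le_add (h5.trans h8) h7
      _ = δ * (m₁ / b) * r := by ring

theorem AAg.of_LD {T : E n → E n} {w : E n} (hT : LD n T w) : AAg T w :=
  AAg.comp (G := fun y => y) (AAg.id _) hT

/-- composition with a local diffeomorphism on the left -/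
theorem AAg.post {G S : E n → E n} {w : E n} (h : AAg G w) (hc : ContinuousAt G w)
    (hS : LD n S (G w)) : AAg (fun y => S (G y)) w := by
  rcases subsingleton_or_nontrivial (E n) with hn | hn
  · intro δ hδ
    refine ⟨1, one_pos, fun p _ r hr0 _ => ⟨ContinuousLinearMap.id ℝ (E n), 1, one_pos,
      fun v => by simp, fun q _ => ?_⟩⟩
    rw [Subsingleton.elim (S (G q) - S (G p) - (ContinuousLinearMap.id ℝ (E n)) (q - p)) 0,
      norm_zero]
    positivity
  obtain ⟨a, b, C, ε, ha1, hb1, hC, hε, happ, hup, hlow⟩ := taylor2 hS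
  obtain ⟨c₁, C₁, ρ₁, hc₁, hC₁, hρ₁, hgr⟩ := growth h
  intro δ hδ
  have hev : ∀ᶠ y in 𝓝 w, ‖G y - G w‖ < ε := by
    filter_upwards [hc (ball_mem_nhds (G w) hε)] with y hy
    rwa [mem_preimage, mem_ball, dist_eq_norm] at hy
  obtain ⟨ε₁, hε₁, hεs⟩ := Metric.eventually_nhds_iff_ball.1 hev
  have hGε : ∀ y, ‖y - w‖ < ε₁ → ‖G y - G w‖ < ε := fun y hy =>
    hεs y (by rwa [mem_ball, dist_eq_norm])
  obtain ⟨ρ, hρ, H⟩ := h (min (1 / 60) (δ / (2 * a * b))) (lt_min (by norm_num) (by positivity))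
  obtain ⟨τ, hτ, hτ1, hτ2⟩ : ∃ τ : ℝ, 0 < τ ∧ τ ≤ 1 ∧ 8 * b * C * C₁ ^ 2 * τ ≤ δ * c₁ := by
    refine ⟨min 1 (δ * c₁ / (8 * b * C * C₁ ^ 2 + 1)), lt_min one_pos (by positivity),
      min_le_left _ _, ?_⟩
    calc 8 * b * C * C₁ ^ 2 * min 1 (δ * c₁ / (8 * b * C * C₁ ^ 2 + 1))
        ≤ (8 * b * C * C₁ ^ 2 + 1) * (δ * c₁ / (8 * b * C * C₁ ^ 2 + 1)) := by
          apply mul_le_mul (by linarith) (min_le_right _ _) _ (by positivity)
          exact (lt_min one_pos (by positivity)).le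
      _ = δ * c₁ := by field_simp
  refine ⟨min (min (ε₁ / 2) (min ρ ρ₁)) (τ ^ 4), lt_min (lt_min (by linarith)
    (lt_min hρ hρ₁)) (by positivity), fun p hp r hr0 hr => ?_⟩
  have hp1 := (hp.trans_le (min_le_left _ _)).trans_le (min_le_left _ _)
  have hp2 := (hp.trans_le (min_le_left _ _)).trans_le (min_le_right _ _)
  have hr1 := (hr.trans_le (min_le_left _ _)).trans_le (min_le_left _ _)
  have hr2 := (hr.trans_le (min_le_left _ _)).trans_le (min_le_right _ _)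
  have hr3 := hr.trans_le (min_le_right _ _)
  obtain ⟨L, m, hm, h1, h3⟩ := H p (hp2.trans_le (min_le_left _ _)) r hr0
    (hr2.trans_le (min_le_left _ _))
  have h3a : ∀ q, ‖q - p‖ ≤ r → ‖G q - G p - L (q - p)‖ ≤ 1 / 60 * m * r := fun q hq =>
    (h3 q hq).trans (by gcongr; exact min_le_left _ _)
  have h3b : ∀ q, ‖q - p‖ ≤ r → ‖G q - G p - L (q - p)‖ ≤ δ / (2 * a * b) * m * r := fun q hq =>
    (h3 q hq).trans (by gcongr; exact min_le_right _ _)
  have hg := hgr p (hp2.trans_le (min_le_right _ _)) r hr0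
    (hr2.trans_le (min_le_right _ _)) L m hm h1 h3a
  obtain ⟨s, hs⟩ : ∃ s, s = sg r := ⟨_, rfl⟩
  rw [← hs] at hg
  have hs0 : 0 < s := hs ▸ sg_pos hr0
  have hrs : r = s ^ 4 := by rw [hs, sg_pow hr0.le]
  have hsτ : s < τ := hs ▸ sg_lt hr0.le hτ.le hr3
  -- an upper bound for the lower bound
  have hmC : m * s ≤ C₁ := by
    obtain ⟨v, hv⟩ := exists_norm_eq (E n) (zero_le_one' ℝ)
    have h4 := h1 v
    have h5 := (hg v).2
    rw [hv, mul_one] at h4 h5
    calc m * s ≤ ‖L v‖ * s := by gcongr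
      _ ≤ C₁ := h5
  set m₁ : ℝ := max m (c₁ * s) with hm₁
  have hm₁0 : 0 < m₁ := hm.trans_le (le_max_left _ _)
  have hL₁ : ∀ v, m₁ * ‖v‖ ≤ ‖L v‖ := by
    intro v
    rw [hm₁, max_mul_of_nonneg _ _ (norm_nonneg v)]
    exact max_le (h1 v) (hg v).1
  refine ⟨(fderiv ℝ S (G p)).comp L, m₁ / b, by positivity, fun v => ?_, fun q hq => ?_⟩
  · have h4 := hL₁ v
    have h5 := hlow (G p) (hGε p (by linarith)) (L v)
    rw [div_mul_eq_mul_div, div_le_iff₀ (by positivity)]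
    change m₁ * ‖v‖ ≤ ‖fderiv ℝ S (G p) (L v)‖ * b
    linarith
  · have hq' : ‖q - w‖ < ε₁ := by
      calc ‖q - w‖ = ‖(q - p) + (p - w)‖ := by congr 1; abel
        _ ≤ ‖q - p‖ + ‖p - w‖ := norm_add_le _ _
        _ < ε₁ := by linarith
    have h4a := h3a q hq
    have h4b := h3b q hq
    have h5 : ‖G q - G p‖ * s ≤ 2 * C₁ * r := by
      have e : G q - G p = (G q - G p - L (q - p)) + L (q - p) := by abel
      have h6 := (hg (q - p)).2
      have h7 : ‖G q - G p‖ ≤ 1 / 60 * m * r + ‖L (q - p)‖ := by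
        rw [e]
        refine (norm_add_le _ _).trans ?_
        have : G q - G p - L (q - p) + L (q - p) - L (q - p) = G q - G p - L (q - p) := by abel
        linarith
      calc ‖G q - G p‖ * s ≤ (1 / 60 * m * r + ‖L (q - p)‖) * s := by gcongr
        _ = 1 / 60 * (m * s) * r + ‖L (q - p)‖ * s := by ring
        _ ≤ 1 / 60 * C₁ * r + C₁ * r := by
          apply add_le_add
          · gcongr
          · exact h6.trans (by gcongr)
        _ ≤ 2 * C₁ * r := by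
          have : 0 ≤ C₁ * r := by positivity
          linarith
    have h6 := happ (G q) (G p) (hGε q hq') (hGε p (by linarith))
    have e3 : S (G q) - S (G p) - ((fderiv ℝ S (G p)).comp L) (q - p) =
        (S (G q) - S (G p) - fderiv ℝ S (G p) (G q - G p)) +
          fderiv ℝ S (G p) (G q - G p - L (q - p)) := by
      rw [map_sub (fderiv ℝ S (G p)) (G q - G p)]
      simp only [ContinuousLinearMap.comp_apply]
      abel
    rw [e3]
    refine (norm_add_le _ _).trans ?_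
    have h7 : ‖fderiv ℝ S (G p) (G q - G p - L (q - p))‖ ≤ δ / 2 * (m₁ / b) * r := by
      refine (hup _ (hGε p (by linarith)) _).trans ?_
      calc a * ‖G q - G p - L (q - p)‖ ≤ a * (δ / (2 * a * b) * m * r) := by gcongr
        _ = δ / 2 * (m / b) * r := by
            field_simp
        _ ≤ δ / 2 * (m₁ / b) * r := by
            gcongr
            exact le_max_left _ _
    have h8 : ‖S (G q) - S (G p) - fderiv ℝ S (G p) (G q - G p)‖ ≤ δ / 2 * (m₁ / b) * r := by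
      refine h6.trans ?_
      have h9 : C * (‖G q - G p‖ * s) ^ 2 ≤ C * (2 * C₁ * r) ^ 2 := by gcongr
      have h10 : C * (2 * C₁ * r) ^ 2 ≤ (δ / 2 * (m₁ / b) * r) * s ^ 2 := by
        have h11 : 8 * b * C * C₁ ^ 2 * r ≤ δ * c₁ * s ^ 3 := by
          calc 8 * b * C * C₁ ^ 2 * r = (8 * b * C * C₁ ^ 2 * s) * s ^ 3 := by
                rw [hrs]
                ring
            _ ≤ (8 * b * C * C₁ ^ 2 * τ) * s ^ 3 := by gcongr
            _ ≤ (δ * c₁) * s ^ 3 := by gcongr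
        have h12 : δ * c₁ * s ^ 3 ≤ δ * m₁ * s ^ 2 := by
          calc δ * c₁ * s ^ 3 = δ * (c₁ * s) * s ^ 2 := by ring
            _ ≤ δ * m₁ * s ^ 2 := by
              gcongr
              exact le_max_right _ _
        have h13 : (8 * b * C * C₁ ^ 2 * r) * r ≤ (δ * m₁ * s ^ 2) * r :=
          mul_le_mul_of_nonneg_right (h11.trans h12) hr0.le
        have e4 : (δ / 2 * (m₁ / b) * r) * s ^ 2 = (δ * m₁ * s ^ 2) * r / (2 * b) := by
          field_simp
        rw [e4, le_div_iff₀ (by positivity)]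
        linarith
      have h14 : (C * ‖G q - G p‖ ^ 2) * s ^ 2 ≤ (δ / 2 * (m₁ / b) * r) * s ^ 2 := by
        calc (C * ‖G q - G p‖ ^ 2) * s ^ 2 = C * (‖G q - G p‖ * s) ^ 2 := by ring
          _ ≤ _ := h9.trans h10
      exact le_of_mul_le_mul_right h14 (by positivity)
    calc _ ≤ δ / 2 * (m₁ / b) * r + δ / 2 * (m₁ / b) * r := add_le_add h8 h7
      _ = δ * (m₁ / b) * r := by ring

end Pool.Agent.Y247.AA
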