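import Pool.Agent.Y247.AA.Step
import Pool.Agent.Y899.SH.Cover
import Pool.Agent.Y674.SH.Final3
import Pool.Agent.Y852.SH.Final

/-!
# Smoothing of asymptotically affine homeomorphisms onto the ball
-/

set_option autoImplicit false

open Set Filter Topology Metric Function MeasureTheory
open scoped Manifold ContDiff

noncomputable section

namespace Pool.Agent.Y247.AA

open Pool.Agent.Y522 Pool.Agent.Y833.SH Pool.Agent.Y674.SH

theorem chart {n : ℕ} {X : Type} [TopologicalSpace X] [ChartedSpace (E n) X] {F : X → E n} {x : X}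
    (h : AAx F x) : ∃ B : E n → X, B 0 = x ∧ InjOn B (closedBall 0 2) ∧
      ∀ z ∈ closedBall (0 : E n) 2, LD n B z := by
  obtain ⟨A, z₀, hz₀, hA, -⟩ := h
  obtain ⟨u, hu, hinj⟩ := hA.eventually_injOn
  obtain ⟨r1, hr1, hball⟩ := (nhds_basis_closedBall (x := z₀)).mem_iff.mp
    (Filter.inter_mem hu hA.eventually)
  have hmem : ∀ z ∈ closedBall (0 : E n) 2, z₀ + (r1 / 2) • z ∈ closedBall z₀ r1 := by
    intro z hz
    rw [mem_closedBall_zero_iff] at hz
    rw [mem_closedBall, dist_eq_norm, add_sub_cancel_left, norm_smul,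
      Real.norm_of_nonneg (by linarith)]
    calc r1 / 2 * ‖z‖ ≤ r1 / 2 * 2 := mul_le_mul_of_nonneg_left hz (by linarith)
      _ = r1 := by ring
  have h2 : (r1 / 2 : ℝ) ≠ 0 := by linarith
  refine ⟨fun z => A (z₀ + (r1 / 2) • z), ?_, ?_, ?_⟩
  · simp [hz₀]
  · intro a ha b hb hab
    have h1 := hinj (hball (hmem a ha)).1 (hball (hmem b hb)).1 hab
    exact smul_right_injective _ h2 (add_left_cancel h1)
  · intro z hz
    have h3 : LD n (fun y : E n => (r1 / 2) • y) z :=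
      LD_linear (ContinuousLinearEquiv.smulLeft (Units.mk0 (r1 / 2) h2)) z
    have h3' : LD n (fun y : E n => z₀ + (r1 / 2) • y) z := by
      have h5 := (LD_add_const z₀ ((r1 / 2) • z)).comp_fun h3
      have e : (fun y : E n => (r1 / 2) • y + z₀) = fun y : E n => z₀ + (r1 / 2) • y := by
        funext y
        rw [add_comm]
      rwa [e] at h5
    have h4 : LD n A (z₀ + (r1 / 2) • z) := (hball (hmem z hz)).2
    exact LD.comp_fun (g := A) (f := fun y : E n => z₀ + (r1 / 2) • y) h4 h3'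

theorem glob (n : ℕ) (X : Type) [TopologicalSpace X] [T2Space X] [ChartedSpace (E n) X]
    [IsManifold (𝓡 n) ∞ X] (F : X → E n) (hF : IsOpenEmbedding F) (hr : range F = ball 0 1)
    (hD : ∀ x, AAx F x) (hK : IsCompact {x | ¬ LD n F x}) :
    ∃ (F' : X → E n) (C : Set X), IsCompact C ∧ Continuous F' ∧ Injective F' ∧
      range F' = range F ∧ (∀ p, p ∉ C → F' p = F p) ∧ ∀ x, LD n F' x := by
  have h1 : ∀ x, ∃ B : E n → X, B 0 = x ∧
      InjOn B (closedBall 0 2) ∧ ∀ z ∈ closedBall (0 : E n) 2, LD n B z :=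
    fun x => chart (hD x)
  choose B hB0 hBi hBd using h1
  have hU : ∀ x (_ : x ∈ {x | ¬ LD n F x}), B x '' ball 0 (1 / 2) ∈ 𝓝 x := by
    intro x _
    have h2 : LD n (B x) 0 := hBd x 0 (by simp)
    have h3 := h2.image_mem_nhds (ball_mem_nhds (0 : E n) (by norm_num : (0 : ℝ) < 1 / 2))
    rwa [hB0 x] at h3
  obtain ⟨t, ht⟩ := hK.elim_nhds_subcover' (fun x _ => B x '' ball 0 (1 / 2)) hU
  set N := t.card with hN
  set A : Fin N → E n → X := fun j => B ((t.equivFin.symm j).1 : X) with hA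
  have hAi : ∀ j, InjOn (A j) (closedBall 0 2) := fun j => hBi _
  have hAd : ∀ j, ∀ z ∈ closedBall (0 : E n) 2, LD n (A j) z := fun j => hBd _
  have hcov : ∀ x, ¬ LD n F x → ∃ j z, ‖z‖ ≤ 1 / 2 ∧ A j z = x := by
    intro x hx
    have h2 := ht hx
    rw [mem_iUnion₂] at h2
    obtain ⟨y, hy, z, hz, hzx⟩ := h2
    refine ⟨t.equivFin ⟨y, hy⟩, z, ?_, ?_⟩
    · rw [mem_ball_zero_iff] at hz
      exact hz.le
    · simp only [hA, Equiv.symm_apply_apply]
      exact hzx
  have hF1 : ∀ p, ‖F p‖ < 1 := by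
    intro p
    have : F p ∈ ball (0 : E n) 1 := hr ▸ mem_range_self p
    simpa using this
  -- the induction
  have key : ∀ i : ℕ, i ≤ N → ∃ F' : X → E n, Continuous F' ∧ (∀ p, ‖F' p‖ < 1) ∧
      (∀ p, (∀ j, p ∉ A j '' closedBall 0 1) → F' p = F p) ∧ (∀ p, LD n F p → LD n F' p) ∧
      (∀ j : Fin N, (j : ℕ) < i → ∀ z, ‖z‖ ≤ 1 / 2 → LD n F' (A j z)) ∧ ∀ x, AAx F' x := by
    intro i
    induction i with
    | zero =>
      intro _
      exact ⟨F, hF.continuous, hF1, fun _ _ => rfl, fun _ h => h, fun j hj => absurd hj (by omega),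
        hD⟩
    | succ i ih =>
      intro hi
      obtain ⟨F', h2, h3, h4, h5, h6, h7⟩ := ih (by omega)
      obtain ⟨F'', g1, g2, g3, g4, g5, g6⟩ := step n X F' (A ⟨i, by omega⟩) h2 (hAi _) (hAd _) h7
      refine ⟨F'', g1, g3 h3, ?_, fun p hp => g4 p (h5 p hp), ?_, g6⟩
      · intro p hp
        rw [g2 p (hp _), h4 p hp]
      · intro j hj z hz
        rcases Nat.lt_succ_iff_lt_or_eq.1 hj with h8 | h8
        · exact g4 _ (h6 j h8 z hz)
        · have h9 : j = ⟨i, by omega⟩ := Fin.ext h8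
          rw [h9]
          exact g5 z hz
  obtain ⟨F', h2, h3, h4, h5, h6, -⟩ := key N le_rfl
  set C : Set X := ⋃ j, A j '' closedBall 0 1 with hCdef
  have hCc : IsCompact C := by
    apply isCompact_iUnion
    intro j
    apply (isCompact_closedBall _ _).image_of_continuousOn
    intro z hz
    exact (hAd j z (closedBall_subset_closedBall (by norm_num) hz)).continuousAt.continuousWithinAt
  have h7 : ∀ p, p ∉ C → F' p = F p := by
    intro p hp
    apply h4
    intro j hj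
    exact hp (mem_iUnion.2 ⟨j, hj⟩)
  have h8 : ∀ x, LD n F' x := by
    intro x
    by_cases hx : LD n F x
    · exact h5 x hx
    · obtain ⟨j, z, hz, rfl⟩ := hcov x hx
      exact h6 j j.2 z hz
  obtain ⟨h9, h10⟩ := Pool.Agent.Y899.SH.cover n X F F' C hF hr hCc h7 h3 h8
  exact ⟨F', C, hCc, h2, h9, h10.trans hr.symm, h7, h8⟩

theorem core (m : ℕ) (M N X : Type) [TopologicalSpace M] [TopologicalSpace N]
    [TopologicalSpace X]
    [ChartedSpace (EuclideanHalfSpace (m + 1)) M] [ChartedSpace (EuclideanHalfSpace (m + 1)) N]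
    [ChartedSpace (E (m + 1)) X]
    [IsManifold (𝓡∂ (m + 1)) ∞ M] [IsManifold (𝓡∂ (m + 1)) ∞ N] [IsManifold (𝓡 (m + 1)) ∞ X]
    (ι : X → M) (hι : Injective ι) (hιr : range ι = (𝓡∂ (m + 1)).interior M)
    (hιd : ∀ x, IsLocalDiffeomorphAt (𝓡 (m + 1)) (𝓡∂ (m + 1)) ∞ ι x)
    (h : M ≃ₜ closedBall (0 : E (m + 1)) 1) (j : N ≃ₜ closedBall (0 : E (m + 1)) 1)
    (hj : ∀ y ∈ (𝓡∂ (m + 1)).interior N,
      IsLocalDiffeomorphAt (𝓡∂ (m + 1)) (𝓡 (m + 1)) ∞ (fun y => (j y : E (m + 1))) y)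
    (hb : ∀ x ∉ (𝓡∂ (m + 1)).interior M,
      IsLocalDiffeomorphAt (𝓡∂ (m + 1)) (𝓡∂ (m + 1)) ∞ (fun x => j.symm (h x)) x)
    (hc : ∀ x ∈ (𝓡∂ (m + 1)).interior M, ∃ A : E (m + 1) → M, A 0 = x ∧
      IsLocalDiffeomorphAt (𝓡 (m + 1)) (𝓡∂ (m + 1)) ∞ A 0 ∧
      AAg (fun z => (h (A z) : E (m + 1))) 0) :
    Nonempty (Diffeomorph (𝓡∂ (m + 1)) (𝓡∂ (m + 1)) M N ∞) := by
  classical
  have hK := nonLD_compact m M N X ι hι hιr hιd h j hj hb
  have hMi : ∀ x, x ∈ (𝓡∂ (m + 1)).interior M ↔ ‖(h x : E (m + 1))‖ < 1 :=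
    int_iff (𝓡∂ (m + 1)) inferInstance h
  have : T2Space M := h.symm.t2Space
  have : CompactSpace M := h.symm.compactSpace
  have hιc : Continuous ι := continuous_iff_continuousAt.2 fun x => (hιd x).contMDiffAt.continuousAt
  have : T2Space X := T2Space.of_injective_continuous hι hιc
  have hιo : IsOpenMap ι := IsLocalDiffeomorph.isOpenMap (I := 𝓡 (m + 1)) (J := 𝓡∂ (m + 1))
    (n := ∞) hιd
  have hmem : ∀ x, ι x ∈ (𝓡∂ (m + 1)).interior M := fun x => hιr ▸ mem_range_self x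
  obtain ⟨F, hF⟩ : ∃ F : X → E (m + 1), F = fun x => (h (ι x) : E (m + 1)) := ⟨_, rfl⟩
  have hFe : ∀ x, F x = h (ι x) := fun x => by rw [hF]
  rw [← hF] at hK
  have hFn : ∀ x, ‖F x‖ < 1 := fun x => by rw [hFe]; exact (hMi _).1 (hmem x)
  have hFc : Continuous F := by
    rw [hF]
    exact continuous_subtype_val.comp (h.continuous.comp hιc)
  have hFi : Injective F := by
    intro a b hab
    rw [hFe, hFe] at hab
    exact hι (h.injective (Subtype.ext hab))
  have hFr : range F = ball 0 1 := by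
    ext y
    constructor
    · rintro ⟨x, rfl⟩
      rw [mem_ball_zero_iff]
      exact hFn x
    · intro hy
      rw [mem_ball_zero_iff] at hy
      have hyc : y ∈ closedBall (0 : E (m + 1)) 1 := by
        rw [mem_closedBall_zero_iff]
        exact hy.le
      have h1 : h.symm ⟨y, hyc⟩ ∈ range ι := by
        rw [hιr, hMi, h.apply_symm_apply]
        exact hy
      obtain ⟨x, hx⟩ := h1
      refine ⟨x, ?_⟩
      rw [hFe, hx, h.apply_symm_apply]
  have hFo : IsOpenMap F := by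
    intro U hU
    obtain ⟨W, hW, hWU⟩ := isOpen_induced_iff.1 (h.isOpenMap _ (hιo U hU))
    have : F '' U = W ∩ ball 0 1 := by
      ext y
      constructor
      · rintro ⟨x, hx, rfl⟩
        refine ⟨?_, ?_⟩
        · have : h (ι x) ∈ h '' (ι '' U) := ⟨ι x, ⟨x, hx, rfl⟩, rfl⟩
          rw [← hWU] at this
          rw [hFe]
          exact this
        · rw [mem_ball_zero_iff]
          exact hFn x
      · rintro ⟨h1, h2⟩
        rw [← hFr] at h2
        obtain ⟨x, rfl⟩ := h2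
        have h3 : h (ι x) ∈ Subtype.val ⁻¹' W := by
          rw [mem_preimage, ← hFe]
          exact h1
        rw [hWU] at h3
        obtain ⟨_, ⟨x', hx', rfl⟩, h4⟩ := h3
        refine ⟨x', hx', ?_⟩
        rw [hFe, hFe, h4]
    rw [this]
    exact hW.inter isOpen_ball
  have hFe' : IsOpenEmbedding F := IsOpenEmbedding.of_continuous_injective_isOpenMap hFc hFi hFo
  have hD : ∀ x, AAx F x := by
    intro x
    obtain ⟨A, hA0, hAd, hA⟩ := hc (ι x) (hmem x)
    -- the local inverse of the inclusion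
    have ha := (hιd x).localInverse_isLocalDiffeomorphAt
    have hax : (hιd x).localInverse (ι x) = x :=
      (hιd x).localInverse_left_inv (hιd x).localInverse_mem_target
    have hA' : LD (m + 1) ((hιd x).localInverse ∘ A) 0 := by
      rw [← hA0] at ha
      exact IsLocalDiffeomorphAt.comp (𝓡 (m + 1)) X hAd ha
    have hev : ∀ᶠ z in 𝓝 (0 : E (m + 1)), ι ((hιd x).localInverse (A z)) = A z := by
      have h1 : A 0 ∈ (hιd x).localInverse.source := by
        rw [hA0]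
        exact (hιd x).localInverse_mem_source
      filter_upwards [hAd.contMDiffAt.continuousAt
        ((hιd x).localInverse.open_source.mem_nhds h1)] with z hz
      exact (hιd x).localInverse_right_inv hz
    refine ⟨(hιd x).localInverse ∘ A, 0, ?_, hA', ?_⟩
    · rw [comp_apply, hA0, hax]
    · apply hA.congr
      filter_upwards [hev] with z hz
      rw [hFe, comp_apply, hz]
  obtain ⟨F', C, hC, -, hF'i, hF'r, hF'C, hF'd⟩ := glob (m + 1) X F hFe' hFr hD hK
  refine glue m M N X ι hι hιr hιd h j hj hb F' C hC hF'i ?_ ?_ hF'd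
  · rw [hF'r, hF]
  · intro x hx
    rw [hF'C x hx, hFe]

/-- **The compact case**, asymptotically affine homeomorphisms. -/
theorem compact (m : ℕ) (M N : Type) [TopologicalSpace M] [TopologicalSpace N]
    [ChartedSpace (EuclideanHalfSpace (m + 1)) M] [ChartedSpace (EuclideanHalfSpace (m + 1)) N]
    [IsManifold (𝓡∂ (m + 1)) ∞ M] [IsManifold (𝓡∂ (m + 1)) ∞ N]
    (h : M ≃ₜ closedBall (0 : E (m + 1)) 1) (j : N ≃ₜ closedBall (0 : E (m + 1)) 1)
    (hj : ∀ y ∈ (𝓡∂ (m + 1)).interior N,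
      IsLocalDiffeomorphAt (𝓡∂ (m + 1)) (𝓡 (m + 1)) ∞ (fun y => (j y : E (m + 1))) y)
    (hb : ∀ x ∉ (𝓡∂ (m + 1)).interior M,
      IsLocalDiffeomorphAt (𝓡∂ (m + 1)) (𝓡∂ (m + 1)) ∞ (fun x => j.symm (h x)) x)
    (hc : ∀ x ∈ (𝓡∂ (m + 1)).interior M, ∃ A : E (m + 1) → M, A 0 = x ∧
      IsLocalDiffeomorphAt (𝓡 (m + 1)) (𝓡∂ (m + 1)) ∞ A 0 ∧
      AAg (fun z => (h (A z) : E (m + 1))) 0) :
    Nonempty (Diffeomorph (𝓡∂ (m + 1)) (𝓡∂ (m + 1)) M N ∞) := by
  let := csI (M := M) (𝓡∂ (m + 1))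
  have := mfI (M := M) (𝓡∂ (m + 1))
  exact core m M N ((𝓡∂ (m + 1)).interior M) Subtype.val Subtype.val_injective
    Subtype.range_val (fun x => ldiff_val (𝓡∂ (m + 1)) x) h j hj hb hc

end Pool.Agent.Y247.AA
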