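import Pool.Agent.Y247.AA.Sch

/-!
# Asymptotically affine extensions of embedded spheres

A local diffeomorphism of a neighbourhood of the closed ball which is injective on the sphere is
injective on the closed ball. So an embedded sphere which extends to an asymptotically affine map
of the ball bounds a standard ball.
-/

set_option autoImplicit false

open Set Filter Topology Metric Function MeasureTheory
open scoped Manifold ContDiff

noncomputable section

namespace Pool.Agent.Y247.AA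

open Pool.Agent.Y522 Pool.Agent.Y514.SH

variable {n : ℕ}

theorem AAg.continuousAt {G : E n → E n} {z : E n} (h : AAg G z) : ContinuousAt G z := by
  obtain ⟨c, C, ρ₁, hc, hC, hρ₁, hgr⟩ := growth h
  obtain ⟨ρ, hρ, H⟩ := h (1 / 60) (by norm_num)
  rw [Metric.continuousAt_iff]
  intro ε hε
  obtain ⟨τ, hτ, hτ1, hτ2⟩ : ∃ τ : ℝ, 0 < τ ∧ τ ≤ 1 ∧ 2 * C * τ < ε := by
    refine ⟨min 1 (ε / (4 * C)), lt_min one_pos (by positivity), min_le_left _ _, ?_⟩
    calc 2 * C * min 1 (ε / (4 * C)) ≤ 2 * C * (ε / (4 * C)) := by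
          gcongr
          exact min_le_right _ _
      _ = ε / 2 := by field_simp; ring
      _ < ε := by linarith
  refine ⟨min (min ρ ρ₁) (τ ^ 4), lt_min (lt_min hρ hρ₁) (by positivity), fun {q} hq => ?_⟩
  rw [dist_eq_norm] at hq ⊢
  rcases eq_or_ne q z with rfl | hne
  · simpa using hε
  have hr0 : 0 < ‖q - z‖ := norm_pos_iff.2 (sub_ne_zero.2 hne)
  have hq1 := (hq.trans_le (min_le_left _ _)).trans_le (min_le_left _ _)
  have hq2 := (hq.trans_le (min_le_left _ _)).trans_le (min_le_right _ _)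
  have hq3 := hq.trans_le (min_le_right _ _)
  obtain ⟨L, m, hm, h1, h3⟩ := H z (by simpa using hρ) ‖q - z‖ hr0 hq1
  have hg := (hgr z (by simpa using hρ₁) ‖q - z‖ hr0 hq2 L m hm h1 h3 (q - z)).2
  have h4 := h1 (q - z)
  have h5 := h3 q le_rfl
  have hs0 := sg_pos hr0
  have hsτ : sg ‖q - z‖ < τ := sg_lt hr0.le hτ.le hq3
  have hrs : ‖q - z‖ = sg ‖q - z‖ ^ 4 := (sg_pow hr0.le).symm
  have h6 : ‖G q - G z‖ ≤ 2 * ‖L (q - z)‖ := by
    have e : G q - G z = (G q - G z - L (q - z)) + L (q - z) := by abel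
    rw [e]
    refine (norm_add_le _ _).trans ?_
    have e2 : 1 / 60 * m * ‖q - z‖ = 1 / 60 * (m * ‖q - z‖) := by ring
    have e3 := norm_nonneg (L (q - z))
    rw [e2] at h5
    linarith
  have h7 : ‖L (q - z)‖ * sg ‖q - z‖ ≤ (C * τ) * sg ‖q - z‖ := by
    refine hg.trans ?_
    have h8 : sg ‖q - z‖ ^ 3 ≤ τ := by
      calc sg ‖q - z‖ ^ 3 = sg ‖q - z‖ * sg ‖q - z‖ ^ 2 := by ring
        _ ≤ τ * 1 := by
          apply mul_le_mul hsτ.le _ (by positivity) hτ.le
          exact pow_le_one₀ hs0.le (by linarith)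
        _ = τ := mul_one τ
    calc C * ‖q - z‖ = C * sg ‖q - z‖ ^ 3 * sg ‖q - z‖ := by
          conv_lhs => rw [hrs]
          ring
      _ ≤ C * τ * sg ‖q - z‖ := by gcongr
  have h9 : ‖L (q - z)‖ ≤ C * τ := le_of_mul_le_mul_right h7 hs0
  linarith

theorem glob0 (n : ℕ) (X : Type) [TopologicalSpace X] [T2Space X] [ChartedSpace (E n) X]
    (F : X → E n) (hF : Continuous F) (hD : ∀ x, AAx F x) (hK : IsCompact {x | ¬ LD n F x}) :
    ∃ (F' : X → E n) (C : Set X), IsCompact C ∧ Continuous F' ∧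
      (∀ p, p ∉ C → F' p = F p) ∧ ∀ x, LD n F' x := by
  have h1 : ∀ x, ∃ B : E n → X, B 0 = x ∧
      InjOn B (closedBall 0 2) ∧ ∀ z ∈ closedBall (0 : E n) 2, LD n B z :=
    fun x => chart (hD x)
  choose B hB0 hBi hBd using h1
  have hU : ∀ x (_ : x ∈ {x | ¬ LD n F x}), B x '' ball 0 (1 / 2) ∈ 𝓝 x := by
    intro x _
    have h2 : LD n (B x) 0 := hBd x 0 (by simp)
    have h3 := h2.image_mem_nhds (ball_mem_nhds (0 : E n) (by norm_num : (0 : ℝ) < 1 / 2))
    rwa [hB0 x] at h3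
  obtain ⟨t, ht⟩ := hK.elim_nhds_subcover' (fun x _ => B x '' ball 0 (1 / 2)) hU
  set N := t.card with hN
  set A : Fin N → E n → X := fun j => B ((t.equivFin.symm j).1 : X) with hA
  have hAi : ∀ j, InjOn (A j) (closedBall 0 2) := fun j => hBi _
  have hAd : ∀ j, ∀ z ∈ closedBall (0 : E n) 2, LD n (A j) z := fun j => hBd _
  have hcov : ∀ x, ¬ LD n F x → ∃ j z, ‖z‖ ≤ 1 / 2 ∧ A j z = x := by
    intro x hx
    have h2 := ht hx
    rw [mem_iUnion₂] at h2
    obtain ⟨y, hy, z, hz, hzx⟩ := h2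
    refine ⟨t.equivFin ⟨y, hy⟩, z, ?_, ?_⟩
    · rw [mem_ball_zero_iff] at hz
      exact hz.le
    · simp only [hA, Equiv.symm_apply_apply]
      exact hzx
  -- the induction
  have key : ∀ i : ℕ, i ≤ N → ∃ F' : X → E n, Continuous F' ∧
      (∀ p, (∀ j, p ∉ A j '' closedBall 0 1) → F' p = F p) ∧ (∀ p, LD n F p → LD n F' p) ∧
      (∀ j : Fin N, (j : ℕ) < i → ∀ z, ‖z‖ ≤ 1 / 2 → LD n F' (A j z)) ∧ ∀ x, AAx F' x := by
    intro i
    induction i with
    | zero =>
      intro _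
      exact ⟨F, hF, fun _ _ => rfl, fun _ h => h, fun j hj => absurd hj (by omega),
        hD⟩
    | succ i ih =>
      intro hi
      obtain ⟨F', h2, h4, h5, h6, h7⟩ := ih (by omega)
      obtain ⟨F'', g1, g2, -, g4, g5, g6⟩ := step n X F' (A ⟨i, by omega⟩) h2 (hAi _) (hAd _) h7
      refine ⟨F'', g1, ?_, fun p hp => g4 p (h5 p hp), ?_, g6⟩
      · intro p hp
        rw [g2 p (hp _), h4 p hp]
      · intro j hj z hz
        rcases Nat.lt_succ_iff_lt_or_eq.1 hj with h8 | h8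
        · exact g4 _ (h6 j h8 z hz)
        · have h9 : j = ⟨i, by omega⟩ := Fin.ext h8
          rw [h9]
          exact g5 z hz
  obtain ⟨F', h2, h4, h5, h6, -⟩ := key N le_rfl
  refine ⟨F', ⋃ j, A j '' closedBall 0 1, ?_, h2, ?_, ?_⟩
  · apply isCompact_iUnion
    intro j
    apply (isCompact_closedBall _ _).image_of_continuousOn
    intro z hz
    exact (hAd j z (closedBall_subset_closedBall (by norm_num) hz)).continuousAt.continuousWithinAt
  · intro p hp
    apply h4
    intro j hj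
    exact hp (mem_iUnion.2 ⟨j, hj⟩)
  · intro x
    by_cases hx : LD n F x
    · exact h5 x hx
    · obtain ⟨j, z, hz, rfl⟩ := hcov x hx
      exact h6 j j.2 z hz

/-- a local diffeomorphism of the ball which is injective on the sphere is injective -/
theorem inj_ball (hn : 2 ≤ n) (H : E n → E n) (hL : ∀ x, ‖x‖ ≤ 1 → LD n H x)
    (hi : InjOn H (sphere 0 1)) : InjOn H (closedBall 0 1) := by
  have : Nontrivial (E n) := by
    have : Nonempty (Fin n) := ⟨⟨0, by omega⟩⟩
    infer_instance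
  have hc : ContinuousOn H (closedBall 0 1) := fun x hx =>
    (hL x (mem_closedBall_zero_iff.1 hx)).continuousAt.continuousWithinAt
  -- neighbourhood of the diagonal
  have hloc : ∀ x : E n, ∃ U : Set (E n), IsOpen U ∧ (‖x‖ ≤ 1 → x ∈ U) ∧ InjOn H U := by
    intro x
    by_cases hx : ‖x‖ ≤ 1
    · obtain ⟨u, hu, hinj⟩ := (hL x hx).eventually_injOn
      obtain ⟨v, hv1, hv2, hv3⟩ := _root_.mem_nhds_iff.mp hu
      exact ⟨v, hv2, fun _ => hv3, hinj.mono hv1⟩
    · exact ⟨∅, isOpen_empty, fun h => absurd h hx, by simp⟩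
  choose U hU1 hU2 hU3 using hloc
  let W : Set (E n × E n) := ⋃ x, U x ×ˢ U x
  have hW : IsOpen W := isOpen_iUnion fun x => (hU1 x).prod (hU1 x)
  let P : Set (E n × E n) := {p | ‖p.1‖ ≤ 1 ∧ ‖p.2‖ ≤ 1 ∧ H p.1 = H p.2 ∧ p.1 ≠ p.2}
  have hPW : P = ((closedBall (0 : E n) 1 ×ˢ closedBall (0 : E n) 1) ∩
      (fun p : E n × E n => H p.1 - H p.2) ⁻¹' {0}) ∩ Wᶜ := by
    ext ⟨a, b⟩
    simp only [P, mem_ofPred_eq, mem_inter_iff, mem_prod, mem_closedBall_zero_iff, mem_preimage,
      mem_singleton_iff, sub_eq_zero, mem_compl_iff]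
    constructor
    · rintro ⟨h1, h2, h3, h4⟩
      refine ⟨⟨⟨h1, h2⟩, h3⟩, fun h5 => ?_⟩
      obtain ⟨x, hx⟩ := mem_iUnion.1 h5
      exact h4 (hU3 x hx.1 hx.2 h3)
    · rintro ⟨⟨⟨h1, h2⟩, h3⟩, h4⟩
      refine ⟨h1, h2, h3, ?_⟩
      rintro rfl
      exact h4 (mem_iUnion.2 ⟨a, hU2 a h1, hU2 a h1⟩)
  have hPc : IsCompact P := by
    rw [hPW]
    refine IsCompact.inter_right ?_ hW.isClosed_compl
    refine IsCompact.of_isClosed_subset ((isCompact_closedBall (0 : E n) 1).prod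
      (isCompact_closedBall (0 : E n) 1)) ?_ inter_subset_left
    refine ContinuousOn.preimage_isClosed_of_isClosed ?_
      (isClosed_closedBall.prod isClosed_closedBall) isClosed_singleton
    exact (hc.comp continuousOn_fst fun p hp => hp.1).sub
      (hc.comp continuousOn_snd fun p hp => hp.2)
  have hsymm : ∀ a b, (a, b) ∈ P → (b, a) ∈ P := fun a b ⟨h1, h2, h3, h4⟩ =>
    ⟨h2, h1, h3.symm, h4.symm⟩
  -- points of the sphere
  have hD : ∀ a b, (a, b) ∈ P → ‖a‖ < 1 := by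
    let D : Set (E n) := Prod.fst '' (P ∩ {p | ‖p.1‖ = 1})
    have hDc : IsClosed D := by
      refine IsCompact.isClosed (IsCompact.image ?_ continuous_fst)
      refine hPc.inter_right (isClosed_eq (by fun_prop) continuous_const)
    have hDopen : ∀ x ∈ D, ∀ᶠ y in 𝓝 x, ‖y‖ = 1 → y ∈ D := by
      rintro _ ⟨⟨a, b⟩, ⟨⟨h1, h2, h3, h4⟩, h5⟩, rfl⟩
      change ‖a‖ = 1 at h5
      change ∀ᶠ y in 𝓝 a, ‖y‖ = 1 → y ∈ D
      simp only at h1 h2 h3 h4
      have hb : ‖b‖ < 1 := by
        rcases h2.lt_or_eq with h | h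
        · exact h
        · exact absurd (hi (mem_sphere_zero_iff_norm.2 h5) (mem_sphere_zero_iff_norm.2 h) h3) h4
      obtain ⟨u, v, hu, hv, hau, hbv, huv⟩ := t2_separation h4
      have h6 : H '' (v ∩ ball 0 1) ∈ 𝓝 (H a) := by
        rw [h3]
        exact (hL b h2).image_mem_nhds (Filter.inter_mem (hv.mem_nhds hbv)
          (isOpen_ball.mem_nhds (mem_ball_zero_iff.2 hb)))
      filter_upwards [(hL a h1).continuousAt h6, hu.mem_nhds hau] with y hy1 hy2 hy3
      obtain ⟨w, ⟨hw1, hw2⟩, hw3⟩ := hy1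
      refine ⟨(y, w), ⟨⟨hy3.le, (mem_ball_zero_iff.1 hw2).le, hw3.symm, ?_⟩, hy3⟩, rfl⟩
      rintro (rfl : y = w)
      exact (Set.disjoint_left.1 huv) hy2 hw1
    have hconn : IsPreconnected (sphere (0 : E n) 1) := by
      apply isPreconnected_sphere
      rw [← Module.finrank_eq_rank, finrank_euclideanSpace_fin]
      exact_mod_cast hn
    -- a point of the sphere outside `D`
    obtain ⟨x₀, hx₀, hmax⟩ := (isCompact_closedBall (0 : E n) 1).exists_isMaxOn
      ⟨0, by simp⟩ (hc.norm)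
    have hx₀' : ‖x₀‖ ≤ 1 := mem_closedBall_zero_iff.1 hx₀
    have hno : ∀ w, ‖w‖ < 1 → H w ≠ H x₀ := by
      intro w hw he
      have h6 : H '' ball 0 1 ∈ 𝓝 (H w) := (hL w hw.le).image_mem_nhds
        (isOpen_ball.mem_nhds (mem_ball_zero_iff.2 hw))
      have h7 : ∃ᶠ y in 𝓝 (H w), ‖H w‖ < ‖y‖ := by
        rw [Metric.nhds_basis_ball.frequently_iff]
        intro ε hε
        rcases eq_or_ne (H w) 0 with h0 | h0
        · obtain ⟨v, hv⟩ := exists_norm_eq (E n) (by linarith : (0 : ℝ) ≤ ε / 2)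
          refine ⟨v, ?_, ?_⟩
          · rw [h0, mem_ball_zero_iff, hv]
            linarith
          · rw [h0, norm_zero, hv]
            linarith
        · have hp : 0 < ‖H w‖ := norm_pos_iff.2 h0
          refine ⟨H w + (ε / 2 / ‖H w‖) • H w, ?_, ?_⟩
          · rw [mem_ball, dist_eq_norm, add_sub_cancel_left, norm_smul,
              Real.norm_of_nonneg (by positivity), div_mul_cancel₀ _ hp.ne']
            linarith
          · have e : H w + (ε / 2 / ‖H w‖) • H w = (1 + ε / 2 / ‖H w‖) • H w := by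
              rw [add_smul, one_smul]
            rw [e, norm_smul, Real.norm_of_nonneg (by positivity)]
            have : 0 < ε / 2 / ‖H w‖ := by positivity
            nlinarith
      obtain ⟨y, hy1, w', hw', rfl⟩ := (h7.and_eventually h6).exists
      have h8 := hmax (ball_subset_closedBall hw')
      simp only [mem_ofPred_eq] at h8
      rw [← he] at h8
      exact absurd h8 (not_le.2 hy1)
    have hx₀s : ‖x₀‖ = 1 := by
      rcases hx₀'.lt_or_eq with h | h
      · exact absurd rfl (hno x₀ h)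
      · exact h
    have hx₀D : x₀ ∉ D := by
      rintro ⟨⟨a, b⟩, ⟨⟨h1, h2, h3, h4⟩, h5⟩, h6⟩
      simp only at h1 h2 h3 h4 h6
      subst h6
      have hb : ‖b‖ < 1 := by
        rcases h2.lt_or_eq with h | h
        · exact h
        · exact absurd (hi (mem_sphere_zero_iff_norm.2 h5) (mem_sphere_zero_iff_norm.2 h) h3) h4
      exact hno b hb h3.symm
    have hDe : ∀ x, ‖x‖ = 1 → x ∉ D := by
      intro x hx hxD
      have hO' : ∀ x ∈ D, ∃ O ⊆ {y | ‖y‖ = 1 → y ∈ D}, IsOpen O ∧ x ∈ O :=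
        fun x hx => _root_.mem_nhds_iff.1 (hDopen x hx)
      choose! O hO using hO'
      have h9 := hconn (⋃ x ∈ D, O x) Dᶜ
        (isOpen_biUnion fun x hx => (hO x hx).2.1) hDc.isOpen_compl
        (by
          intro y hy
          by_cases hyD : y ∈ D
          · exact Or.inl (mem_biUnion hyD (hO y hyD).2.2)
          · exact Or.inr hyD)
        ⟨x, mem_sphere_zero_iff_norm.2 hx, mem_biUnion hxD (hO x hxD).2.2⟩
        ⟨x₀, mem_sphere_zero_iff_norm.2 hx₀s, hx₀D⟩
      obtain ⟨y, hy1, hy2, hy3⟩ := h9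
      obtain ⟨x', hx'D, hyx'⟩ := mem_iUnion₂.1 hy2
      exact hy3 ((hO x' hx'D).1 hyx' (mem_sphere_zero_iff_norm.1 hy1))
    intro a b hab
    rcases hab.1.lt_or_eq with h | h
    · exact h
    · exact absurd ⟨(a, b), ⟨hab, h⟩, rfl⟩ (hDe a h)
  -- the projection of `P` is open and compact
  have hPe : Prod.fst '' P = ∅ := by
    by_contra hne
    have h1 : IsClopen (Prod.fst '' P) := by
      refine ⟨(hPc.image continuous_fst).isClosed, ?_⟩
      rw [isOpen_iff_mem_nhds]
      rintro _ ⟨⟨a, b⟩, hab, rfl⟩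
      change Prod.fst '' P ∈ 𝓝 a
      have ha := hD a b hab
      have hb := hD b a (hsymm a b hab)
      obtain ⟨h1, h2, h3, h4⟩ := hab
      simp only at h1 h2 h3 h4
      obtain ⟨u, v, hu, hv, hau, hbv, huv⟩ := t2_separation h4
      have h6 : H '' (v ∩ ball 0 1) ∈ 𝓝 (H a) := by
        rw [h3]
        exact (hL b h2).image_mem_nhds (Filter.inter_mem (hv.mem_nhds hbv)
          (isOpen_ball.mem_nhds (mem_ball_zero_iff.2 hb)))
      filter_upwards [(hL a h1).continuousAt h6, hu.mem_nhds hau,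
        isOpen_ball.mem_nhds (mem_ball_zero_iff.2 ha)] with y hy1 hy2 hy3
      obtain ⟨w, ⟨hw1, hw2⟩, hw3⟩ := hy1
      refine ⟨(y, w), ⟨(mem_ball_zero_iff.1 hy3).le, (mem_ball_zero_iff.1 hw2).le, hw3.symm, ?_⟩,
        rfl⟩
      rintro (rfl : y = w)
      exact (Set.disjoint_left.1 huv) hy2 hw1
    have h2 : Prod.fst '' P = univ := h1.eq_univ (nonempty_iff_ne_empty.2 hne)
    have h3 : IsCompact (univ : Set (E n)) := h2 ▸ hPc.image continuous_fst
    exact (NoncompactSpace.noncompact_univ (X := E n)) h3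
  intro a ha b hb hab
  by_contra hne
  have h1 : a ∈ Prod.fst '' P := ⟨(a, b), ⟨mem_closedBall_zero_iff.1 ha,
    mem_closedBall_zero_iff.1 hb, hab, hne⟩, rfl⟩
  rw [hPe] at h1
  exact h1

/-- **Schoenflies for spheres with an asymptotically affine extension.** -/
theorem sphere_ext (hn : 2 ≤ n) (H : E n → E n) (hS : ∀ x, ‖x‖ = 1 → LD n H x)
    (hi : InjOn H (sphere 0 1)) (hD : ∀ x, ‖x‖ < 1 → AAg H x) :
    ∃ (G : E n → E n) (O : E n ≃ₗᵢ[ℝ] E n) (R' : ℝ), Bijective G ∧
      (∀ x, LD n G x) ∧ (∀ x, ‖x‖ = 1 → G x = H x) ∧ ∀ x, R' ≤ ‖x‖ → G x = O x := by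
  classical
  obtain ⟨F, hFd⟩ : ∃ F : E n → E n, F = fun y => H (UB n y) := ⟨_, rfl⟩
  have hFc : Continuous F := by
    rw [continuous_iff_continuousAt, hFd]
    intro y
    exact ContinuousAt.comp (g := H) (hD _ (UB_norm n y)).continuousAt
      (UB_continuous n).continuousAt
  have hFA : ∀ x, AAx F x := by
    intro x
    refine ⟨fun y => y, x, rfl, LD.id x, ?_⟩
    rw [hFd]
    exact AAg.comp (hD _ (UB_norm n x)) (UB_LD n x)
  have hK : IsCompact {x | ¬ LD n F x} := by
    rw [hFd]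
    exact isCompact_bad n H hS
  obtain ⟨F', C, hC, hF'c, hF'C, hF'L⟩ := glob0 n (E n) F hFc hFA hK
  obtain ⟨H', hH'⟩ : ∃ H' : E n → E n,
    H' = fun x => if ‖x‖ < 1 then F' ((UB n).symm x) else H x := ⟨_, rfl⟩
  have hH1 : ∀ x, ‖x‖ < 1 → H' x = F' ((UB n).symm x) := fun x hx => by
    rw [hH']
    exact if_pos hx
  have hH2 : ∀ x, 1 ≤ ‖x‖ → H' x = H x := fun x hx => by
    rw [hH']
    exact if_neg (not_lt.2 hx)
  have hBC : IsCompact (UB n '' C) := hC.image (UB_continuous n)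
  have hH3 : ∀ x, x ∉ UB n '' C → H' x = H x := by
    intro x hx
    rcases lt_or_ge ‖x‖ 1 with h | h
    · rw [hH1 x h, hF'C, hFd]
      · change H (UB n ((UB n).symm x)) = H x
        rw [UB_right n h]
      · intro h1
        exact hx ⟨_, h1, UB_right n h⟩
    · exact hH2 x h
  have hL1 : ∀ x, ‖x‖ ≤ 1 → LD n H' x := by
    intro x hx
    rcases hx.lt_or_eq with h | h
    · have h1 : LD n (fun z => F' ((UB n).symm z)) x :=
        LD.comp_fun (g := F') (f := (UB n).symm) (hF'L _) (UB_symm_LD n h)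
      refine h1.congr ?_
      have h2 : ∀ᶠ z in 𝓝 x, ‖z‖ < 1 :=
        continuous_norm.continuousAt.eventually (gt_mem_nhds h)
      filter_upwards [h2] with z hz
      exact hH1 z hz
    · refine (hS x h).congr ?_
      have h2 : x ∉ UB n '' C := by
        rintro ⟨y, _, hy⟩
        have := UB_norm n y
        rw [hy] at this
        linarith
      filter_upwards [hBC.isClosed.isOpen_compl.mem_nhds h2] with z hz
      exact hH3 z hz
  have hi1 : InjOn H' (sphere 0 1) := by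
    intro a ha b hb hab
    have ha' := mem_sphere_zero_iff_norm.1 ha
    have hb' := mem_sphere_zero_iff_norm.1 hb
    rw [hH2 a ha'.ge, hH2 b hb'.ge] at hab
    exact hi ha hb hab
  have hi2 := inj_ball hn H' hL1 hi1
  -- a larger ball
  obtain ⟨t, ht, hti⟩ := hi2.exists_mem_nhdsSet (isCompact_closedBall (0 : E n) 1)
    (fun x hx => (hL1 x (mem_closedBall_zero_iff.1 hx)).continuousAt)
    (fun x hx => (hL1 x (mem_closedBall_zero_iff.1 hx)).eventually_injOn)
  have hop : IsOpen {y | LD n H' y} := isOpen_iff_mem_nhds.2 fun y hy => LD.eventually hy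
  have ht2 : interior t ∩ {y | LD n H' y} ∈ 𝓝ˢ (closedBall (0 : E n) 1) := by
    refine (isOpen_interior.inter hop).mem_nhdsSet.2 (subset_inter ?_ ?_)
    · exact subset_interior_iff_mem_nhdsSet.2 ht
    · intro x hx
      exact hL1 x (mem_closedBall_zero_iff.1 hx)
  obtain ⟨δ, hδ, hδt⟩ := (isCompact_closedBall (0 : E n) 1).exists_thickening_subset_open
    (isOpen_interior.inter hop) (subset_of_mem_nhdsSet ht2)
  rw [thickening_closedBall hδ zero_le_one, add_comm] at hδt
  have hLδ : ∀ x, ‖x‖ < 1 + δ → LD n H' x := fun x hx => (hδt (mem_ball_zero_iff.2 hx)).2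
  obtain ⟨G, O, R', g1, g2, g3, -, g5⟩ := sch n H' δ hδ
    (fun x hx => (hLδ x (mem_ball_zero_iff.1 hx)).continuousAt.continuousWithinAt)
    (hti.mono fun x hx => interior_subset (hδt hx).1)
    (fun x _ hx => hLδ x hx) (fun x hx => AAg.of_LD (hLδ x (by linarith)))
  refine ⟨G, O, R', g1, g2, fun x hx => ?_, g5⟩
  rw [g3 x hx, hH2 x hx.ge]

end Pool.Agent.Y247.AA
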