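import Pool.Agent.Y954.SH.MollS
import Pool.Agent.Y207.SH.MStepA
import Pool.Agent.Y247.AA.Germ

/-!
# Mollification of asymptotically affine germs
-/

set_option autoImplicit false

open Set Filter Topology Metric Function MeasureTheory
open scoped Manifold ContDiff Convolution

noncomputable section

namespace Pool.Agent.Y247.AA

open Pool.Agent.Y522 Pool.Agent.Y954.SH

variable {n : ℕ}

theorem gk_scale {b τ : ℝ} (w : E n) :
    gk n (b * τ) w = (b ^ n)⁻¹ * gk n τ (b⁻¹ • w) := by
  unfold gk
  rw [mul_pow, mul_inv, mul_inv, mul_assoc, smul_smul]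
  congr 4
  ring

/-- the kernel is a Lipschitz function of the radius and the point -/
theorem gk_lip (n : ℕ) : ∃ M : ℝ, 0 ≤ M ∧ ∀ (τ : ℝ) (w w' : E n), 1 / 2 ≤ τ → τ ≤ 3 / 2 →
    ‖w‖ ≤ 6 → ‖w'‖ ≤ 6 → |gk n τ w - gk n 1 w'| ≤ M * max |τ - 1| ‖w - w'‖ := by
  have hcd : ContDiffOn ℝ ∞ (fun q : ℝ × E n => gk n q.1 q.2) (Ioi 0 ×ˢ univ) := by
    unfold gk
    have e0 : ∀ q ∈ Ioi (0 : ℝ) ×ˢ (univ : Set (E n)), q.1 ≠ 0 := by
      rintro q ⟨hq, -⟩
      exact (ne_of_gt hq)
    have e1 : ContDiffOn ℝ ∞ (fun q : ℝ × E n => q.1) (Ioi 0 ×ˢ univ) := contDiff_fst.contDiffOn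
    apply ContDiffOn.mul
    · exact (e1.pow n).inv fun q hq => pow_ne_zero n (e0 q hq)
    · apply kr_smooth.comp_contDiffOn
      exact (e1.inv e0).smul contDiff_snd.contDiffOn
  have hopen : IsOpen (Ioi (0 : ℝ) ×ˢ (univ : Set (E n))) := isOpen_Ioi.prod isOpen_univ
  have hcont := hcd.continuousOn_fderiv_of_isOpen hopen (by simp)
  set S : Set (ℝ × E n) := Icc (1 / 2) (3 / 2) ×ˢ closedBall 0 6 with hS
  have hSU : S ⊆ Ioi (0 : ℝ) ×ˢ (univ : Set (E n)) := by
    rintro ⟨x, y⟩ ⟨hx, -⟩
    refine ⟨?_, mem_univ _⟩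
    have := hx.1
    change 0 < x
    linarith
  have hSc : IsCompact S := isCompact_Icc.prod (isCompact_closedBall _ _)
  obtain ⟨M, hM⟩ := hSc.exists_bound_of_continuousOn (hcont.mono hSU)
  have hconv : Convex ℝ S := (convex_Icc _ _).prod (convex_closedBall _ _)
  have hM0 : 0 ≤ M := (norm_nonneg _).trans (hM (1, 0) ⟨⟨by norm_num, by norm_num⟩, by simp⟩)
  refine ⟨M, hM0, fun τ w w' h1 h2 hw hw' => ?_⟩
  have key := hconv.norm_image_sub_le_of_norm_fderiv_le (𝕜 := ℝ)
    (f := fun q : ℝ × E n => gk n q.1 q.2)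
    (fun q hq => ((hcd q (hSU hq)).contDiffAt (hopen.mem_nhds (hSU hq))).differentiableAt (by simp))
    hM (x := (1, w')) (y := (τ, w)) ⟨⟨by norm_num, by norm_num⟩, by simpa using hw'⟩
    ⟨⟨h1, h2⟩, by simpa using hw⟩
  rw [Real.norm_eq_abs] at key
  refine key.trans (le_of_eq ?_)
  rw [Prod.mk_sub_mk, Prod.norm_mk, Real.norm_eq_abs]

theorem gk_cont {r : ℝ} : Continuous (gk n r) := by
  unfold gk
  have := (kr_smooth (n := n)).continuous
  fun_prop

/-- the mollification as an integral over a ball -/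
theorem moll_int (H : E n → E n) (c : E n → ℝ) (p q : E n) (R : ℝ) (hq : 0 < c q)
    (hR : ‖q - p‖ + c q ≤ R) :
    Moll n H c q = ∫ t in closedBall p R, gk n (c q) (q - t) • H t := by
  have h1 : Moll n H c q = ∫ s, kr n s • ((closedBall p R).indicator H) (q + c q • s) := by
    unfold Moll
    congr 1
    funext s
    by_cases hs : kr n s = 0
    · rw [hs, zero_smul, zero_smul]
    · rw [indicator_of_mem]
      rw [mem_closedBall, dist_eq_norm]
      calc ‖q + c q • s - p‖ = ‖(q - p) + c q • s‖ := by congr 1; abel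
        _ ≤ ‖q - p‖ + ‖c q • s‖ := norm_add_le _ _
        _ = ‖q - p‖ + c q * ‖s‖ := by rw [norm_smul, Real.norm_of_nonneg hq.le]
        _ ≤ ‖q - p‖ + c q * 1 := by
            gcongr
            exact (kr_lt hs).le
        _ ≤ R := by linarith
  rw [h1, moll_conv _ _ hq]
  unfold convolution
  simp only [LL_apply]
  rw [← integral_indicator measurableSet_closedBall]
  congr 1
  funext t
  by_cases ht : t ∈ closedBall p R
  · rw [indicator_of_mem ht, indicator_of_mem ht]
  · rw [indicator_of_notMem ht, indicator_of_notMem ht, smul_zero]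

/-- the Lipschitz estimate -/
theorem moll_lip (n : ℕ) : ∃ C : ℝ, 0 ≤ C ∧ ∀ (H : E n → E n) (c : E n → ℝ) (p q : E n) (h : ℝ),
    0 < c p → |c q - c p| ≤ 1 / 2 * ‖q - p‖ → ‖q - p‖ ≤ c p →
    ContinuousOn H (closedBall p (4 * c p)) → (∀ y, ‖y - p‖ ≤ 4 * c p → ‖H y‖ ≤ h) →
    ‖Moll n H c q - Moll n H c p‖ ≤ C * h * (‖q - p‖ / c p) := by
  obtain ⟨M, hM0, hM⟩ := gk_lip n
  set V : ℝ := volume.real (ball (0 : E n) 1) with hV
  have hV0 : 0 ≤ V := measureReal_nonneg
  refine ⟨M * 4 ^ n * V, by positivity, ?_⟩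
  intro H c p q h hp hcq hqp hH hh
  set b := c p with hb
  have hcq' : |c q - b| ≤ 1 / 2 * b := hcq.trans (by linarith)
  rw [abs_le] at hcq'
  have hqpos : 0 < c q := by linarith
  have h0 : 0 ≤ h := (norm_nonneg _).trans (hh p (by simp; positivity))
  rw [moll_int H c p q (4 * b) hqpos (by linarith), moll_int H c p p (4 * b) hp (by simp; linarith)]
  have hcomp : IsCompact (closedBall p (4 * b)) := isCompact_closedBall _ _
  have hi : ∀ (a : ℝ) (y : E n), IntegrableOn (fun t => gk n a (y - t) • H t)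
      (closedBall p (4 * b)) := by
    intro a y
    refine ContinuousOn.integrableOn_compact hcomp ?_
    have hg : ContinuousOn (fun t => gk n a (y - t)) (closedBall p (4 * b)) := by
      have := gk_cont (n := n) (r := a)
      fun_prop
    exact hg.smul hH
  rw [← integral_sub (hi _ _) (hi _ _)]
  have hbd : ∀ t ∈ closedBall p (4 * b), ‖gk n (c q) (q - t) • H t - gk n (c p) (p - t) • H t‖ ≤
      (b ^ n)⁻¹ * (M * (‖q - p‖ / b)) * h := by
    intro t ht
    rw [mem_closedBall, dist_eq_norm] at ht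
    rw [← sub_smul, norm_smul]
    apply mul_le_mul _ (hh t ht) (norm_nonneg _) (by positivity)
    have e1 : c q = b * (c q / b) := by field_simp
    have e2 : c p = b * 1 := by rw [mul_one]
    rw [e1, e2, gk_scale, gk_scale, ← mul_sub, Real.norm_eq_abs, abs_mul,
      abs_of_nonneg (by positivity : (0 : ℝ) ≤ (b ^ n)⁻¹)]
    apply mul_le_mul_of_nonneg_left _ (by positivity)
    have hnq : ‖q - t‖ ≤ 6 * b := by
      calc ‖q - t‖ = ‖(q - p) - (t - p)‖ := by congr 1; abel
        _ ≤ ‖q - p‖ + ‖t - p‖ := norm_sub_le _ _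
        _ ≤ 6 * b := by linarith
    have hnp : ‖p - t‖ ≤ 6 * b := by
      rw [norm_sub_rev]
      linarith
    have hsc : ∀ w : E n, ‖w‖ ≤ 6 * b → ‖b⁻¹ • w‖ ≤ 6 := by
      intro w hw
      rw [norm_smul, norm_inv, Real.norm_of_nonneg hp.le, inv_mul_eq_div, div_le_iff₀ hp]
      exact hw
    refine (hM (c q / b) (b⁻¹ • (q - t)) (b⁻¹ • (p - t)) ?_ ?_ (hsc _ hnq) (hsc _ hnp)).trans ?_
    · rw [le_div_iff₀ hp]
      linarith
    · rw [div_le_iff₀ hp]
      linarith
    · apply mul_le_mul_of_nonneg_left _ hM0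
      apply max_le
      · have e3 : c q / b - 1 = (c q - b) / b := by field_simp
        rw [e3, abs_div, abs_of_pos hp]
        apply div_le_div_of_nonneg_right _ hp.le
        refine hcq.trans ?_
        have := norm_nonneg (q - p)
        linarith
      · rw [← smul_sub, norm_smul, norm_inv, Real.norm_of_nonneg hp.le, inv_mul_eq_div]
        apply le_of_eq
        congr 2
        abel
  refine (norm_setIntegral_le_of_norm_le_const hcomp.measure_lt_top hbd).trans (le_of_eq ?_)
  have hvol : volume.real (closedBall p (4 * b)) = (4 * b) ^ n * V := by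
    rw [measureReal_def, Measure.addHaar_closedBall _ _ (by positivity), ENNReal.toReal_mul,
      ENNReal.toReal_ofReal (by positivity), finrank_euclideanSpace, Fintype.card_fin, hV,
      measureReal_def]
  rw [hvol, mul_pow]
  field_simp

/-- mollification of a function minus an affine function -/
theorem moll_sub (G : E n → E n) (c : E n → ℝ) (a p q : E n) (L : E n →L[ℝ] E n)
    (hG : ContinuousOn G (closedBall q (c q))) (hc : 0 ≤ c q) :
    Moll n (fun y => G y - a - L (y - p)) c q = Moll n G c q - a - L (q - p) := by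
  have hG' : ContinuousOn (fun s : E n => G (q + c q • s)) (closedBall 0 1) := by
    apply hG.comp (by fun_prop)
    intro s hs
    rw [mem_closedBall_zero_iff] at hs
    rw [mem_closedBall, dist_eq_norm, add_sub_cancel_left, norm_smul, Real.norm_of_nonneg hc]
    calc c q * ‖s‖ ≤ c q * 1 := by gcongr
      _ = c q := mul_one _
  have i1 : Integrable (fun s : E n => kr n s • G (q + c q • s)) :=
    Pool.Agent.Y207.SH3.kr_smul_integrable hG'
  have i2 : Integrable (fun s : E n => kr n s • (a + L (q - p))) :=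
    Pool.Agent.Y207.SH3.kr_smul_integrable continuousOn_const
  have i3 : Integrable (fun s : E n => kr n s • (c q • L s)) := by
    apply Pool.Agent.Y207.SH3.kr_smul_integrable
    have := L.continuous
    fun_prop
  have hodd : ∫ s : E n, kr n s • (c q • L s) = 0 := by
    have h1 : ∫ s : E n, kr n s • (c q • L s) = ∫ s : E n, kr n (-s) • (c q • L (-s)) :=
      (integral_neg_eq_self (fun s : E n => kr n s • (c q • L s)) volume).symm
    have h2 : ∫ s : E n, kr n (-s) • (c q • L (-s)) = -∫ s : E n, kr n s • (c q • L s) := by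
      rw [← integral_neg]
      congr 1
      funext s
      rw [kr_neg, map_neg, smul_neg, smul_neg]
    rw [h2] at h1
    obtain ⟨I, hI⟩ : ∃ I : E n, I = ∫ s : E n, kr n s • (c q • L s) := ⟨_, rfl⟩
    rw [← hI] at h1 ⊢
    have h3 : (2 : ℝ) • I = 0 := by
      rw [two_smul]
      nth_rewrite 1 [h1]
      exact neg_add_cancel I
    exact (smul_eq_zero.1 h3).resolve_left (by norm_num)
  unfold Moll
  have e : (fun s : E n => kr n s • (G (q + c q • s) - a - L (q + c q • s - p))) = fun s =>
      (kr n s • G (q + c q • s) - kr n s • (a + L (q - p))) - kr n s • (c q • L s) := by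
    funext s
    have : L (q + c q • s - p) = L (q - p) + c q • L s := by
      rw [← map_smul, ← map_add]
      congr 1
      abel
    rw [this, ← smul_sub, ← smul_sub]
    congr 1
    abel
  have i12 : Integrable (fun s : E n => kr n s • G (q + c q • s) - kr n s • (a + L (q - p))) :=
    i1.sub i2
  rw [e, integral_sub i12 i3, integral_sub i1 i2, hodd, integral_smul_const, kr_int,
    one_smul, sub_zero]
  abel

/-- the mollification is bounded by the function -/
theorem moll_le (H : E n → E n) (c : E n → ℝ) (q : E n) (h : ℝ) (hc : 0 ≤ c q)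
    (hH : ∀ y, ‖y - q‖ ≤ c q → ‖H y‖ ≤ h) : ‖Moll n H c q‖ ≤ h := by
  unfold Moll
  have h2 : ‖∫ s, kr n s • H (q + c q • s)‖ ≤ ∫ s, kr n s * h := by
    apply norm_integral_le_of_norm_le (kr_integrable.mul_const _)
    apply Eventually.of_forall
    intro s
    rw [norm_smul, Real.norm_of_nonneg (kr_nonneg s)]
    by_cases hs : kr n s = 0
    · rw [hs]
      simp
    · apply mul_le_mul_of_nonneg_left _ (kr_nonneg s)
      apply hH
      rw [add_sub_cancel_left, norm_smul, Real.norm_of_nonneg hc]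
      calc c q * ‖s‖ ≤ c q * 1 := by
            gcongr
            exact (kr_lt hs).le
        _ = c q := mul_one _
  rwa [integral_mul_const, kr_int, one_mul] at h2

end Pool.Agent.Y247.AA
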