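import Pool.Agent.Y247.AA.Moll

/-!
# Mollification of asymptotically affine germs: preservation and non-degeneracy
-/

set_option autoImplicit false

open Set Filter Topology Metric Function MeasureTheory
open scoped Manifold ContDiff Convolution

noncomputable section

namespace Pool.Agent.Y247.AA

open Pool.Agent.Y522 Pool.Agent.Y954.SH

variable {n : ℕ}

theorem closedBall_sub {p : E n} {a R : ℝ} (h : ‖p‖ + a ≤ R) : closedBall p a ⊆ closedBall 0 R := by
  intro y hy
  rw [mem_closedBall, dist_eq_norm] at hy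
  rw [mem_closedBall_zero_iff]
  calc ‖y‖ = ‖(y - p) + p‖ := by congr 1; abel
    _ ≤ ‖y - p‖ + ‖p‖ := norm_add_le _ _
    _ ≤ R := by linarith

/-- one scale: radius small compared with the scale -/
theorem aff_small {G : E n → E n} {c : E n → ℝ} {δ r : ℝ} {p : E n}
    (hG : ContinuousOn G (closedBall p (4 * r))) (hc0 : ∀ z, 0 ≤ c z)
    (hcl : ∀ y z, |c y - c z| ≤ 1 / 2 * ‖y - z‖) (hr : 0 < r) (hcp : c p ≤ r)
    (h : Aff G δ p (4 * r)) : Aff (Moll n G c) (8 * δ) p r := by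
  obtain ⟨L, m, hm, h1, h3⟩ := h
  refine ⟨L, m, hm, h1, fun q hq => ?_⟩
  have hcq : ∀ q, ‖q - p‖ ≤ r → c q ≤ 3 / 2 * r := by
    intro q hq
    have h4 := (abs_le.1 (hcl q p)).2
    linarith
  have key : ∀ q, ‖q - p‖ ≤ r → ‖Moll n G c q - G p - L (q - p)‖ ≤ δ * m * (4 * r) := by
    intro q hq
    rw [← moll_sub G c (G p) p q L (hG.mono ?_) (hc0 q)]
    · apply moll_le _ _ _ _ (hc0 q)
      intro y hy
      apply h3
      have := near hy hq
      have := hcq q hq
      linarith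
    · intro y hy
      rw [mem_closedBall, dist_eq_norm] at hy ⊢
      have := near hy hq
      have := hcq q hq
      linarith
  have k1 := key q hq
  have k2 := key p (by simpa using hr.le)
  have e : Moll n G c q - Moll n G c p - L (q - p) =
      (Moll n G c q - G p - L (q - p)) - (Moll n G c p - G p - L (p - p)) := by
    rw [sub_self, map_zero]
    abel
  rw [e]
  refine (norm_sub_le _ _).trans ?_
  calc _ ≤ δ * m * (4 * r) + δ * m * (4 * r) := add_le_add k1 k2
    _ = 8 * δ * m * r := by ring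

/-- the constant of the Lipschitz estimate -/
def CC (n : ℕ) : ℝ := (moll_lip n).choose

theorem CC_nonneg (n : ℕ) : 0 ≤ CC n := (moll_lip n).choose_spec.1

/-- one scale: radius large compared with the scale -/
theorem aff_large {G : E n → E n} {c : E n → ℝ} {δ m : ℝ} {p : E n} {L : E n →L[ℝ] E n}
    (hG : ContinuousOn G (closedBall p (4 * c p))) (hc0 : ∀ z, 0 ≤ c z)
    (hcl : ∀ y z, |c y - c z| ≤ 1 / 2 * ‖y - z‖) (hcp : 0 < c p)
    (h3 : ∀ q, ‖q - p‖ ≤ 4 * c p → ‖G q - G p - L (q - p)‖ ≤ δ * m * (4 * c p))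
    {q : E n} (hq : ‖q - p‖ ≤ c p) :
    ‖Moll n G c q - Moll n G c p - L (q - p)‖ ≤ 4 * CC n * δ * m * ‖q - p‖ := by
  have hcq : c q ≤ 3 / 2 * c p := by
    have h4 := (abs_le.1 (hcl q p)).2
    linarith
  have hH : ContinuousOn (fun y => G y - G p - L (y - p)) (closedBall p (4 * c p)) := by
    apply ContinuousOn.sub (hG.sub continuousOn_const)
    have := L.continuous
    fun_prop
  have hsub : ∀ q, ‖q - p‖ ≤ c p → c q ≤ 3 / 2 * c p →
      Moll n (fun y => G y - G p - L (y - p)) c q = Moll n G c q - G p - L (q - p) := by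
    intro q hq hcq
    apply moll_sub G c (G p) p q L (hG.mono ?_) (hc0 q)
    intro y hy
    rw [mem_closedBall, dist_eq_norm] at hy ⊢
    have := near hy hq
    linarith
  have key := (moll_lip n).choose_spec.2 (fun y => G y - G p - L (y - p)) c p q
    (δ * m * (4 * c p)) hcp (hcl q p) hq hH h3
  rw [hsub q hq hcq, hsub p (by simpa using hcp.le) (by linarith), sub_self, map_zero] at key
  have e : Moll n G c q - Moll n G c p - L (q - p) =
      Moll n G c q - G p - L (q - p) - (Moll n G c p - G p - 0) := by abel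
  rw [e]
  refine key.trans (le_of_eq ?_)
  change CC n * (δ * m * (4 * c p)) * (‖q - p‖ / c p) = _
  field_simp

/-- asymptotically affine germs are preserved where the radius vanishes -/
theorem pres {G : E n → E n} {c : E n → ℝ} {z : E n} (hG : ContinuousOn G (closedBall 0 2))
    (hc0 : ∀ z, 0 ≤ c z) (hcl : ∀ y z, |c y - c z| ≤ 1 / 2 * ‖y - z‖) (hz : ‖z‖ ≤ 1)
    (hcz : c z = 0) (hA : AAg G z) : AAg (Moll n G c) z := by
  intro δ hδ
  have hC := CC_nonneg n
  obtain ⟨δ₁, hδ₁, e1, e2⟩ : ∃ δ₁ : ℝ, 0 < δ₁ ∧ 8 * δ₁ ≤ δ ∧ 4 * CC n * δ₁ ≤ δ := by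
    refine ⟨δ / (8 + 4 * CC n), by positivity, ?_, ?_⟩
    · rw [mul_div_assoc', div_le_iff₀ (by positivity)]
      nlinarith
    · rw [mul_div_assoc', div_le_iff₀ (by positivity)]
      nlinarith
  obtain ⟨ρ, hρ, H⟩ := hA δ₁ hδ₁
  refine ⟨min (ρ / 8) (1 / 8), lt_min (by linarith) (by norm_num), fun p hp r hr0 hr => ?_⟩
  have hp1 := hp.trans_le (min_le_left _ _)
  have hp2 := hp.trans_le (min_le_right _ _)
  have hr1 := hr.trans_le (min_le_left _ _)
  have hr2 := hr.trans_le (min_le_right _ _)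
  have hpn : ‖p‖ ≤ 9 / 8 := by
    have := norm_le_norm_add_norm_sub' p z
    linarith
  have hcp : c p ≤ 1 / 2 * ‖p - z‖ := by
    have := (abs_le.1 (hcl p z)).2
    linarith
  rcases le_or_gt (c p) r with h | h
  · obtain ⟨L, m, hm, h1, h3⟩ := aff_small (δ := δ₁)
      (hG.mono (closedBall_sub (by linarith))) hc0 hcl hr0 h (H p (by linarith) (4 * r)
        (by linarith) (by linarith))
    exact ⟨L, m, hm, h1, fun q hq => (h3 q hq).trans (by gcongr)⟩
  · have hcpos : 0 < c p := hr0.trans h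
    obtain ⟨L, m, hm, h1, h3⟩ := H p (by linarith) (4 * c p) (by linarith) (by linarith)
    refine ⟨L, m, hm, h1, fun q hq => ?_⟩
    refine (aff_large (hG.mono (closedBall_sub (by linarith))) hc0 hcl hcpos h3
      (hq.trans h.le)).trans ?_
    calc 4 * CC n * δ₁ * m * ‖q - p‖ ≤ δ * m * r := by gcongr

/-- non-degeneracy where the radius is positive -/
theorem nondeg {G : E n → E n} {c : E n → ℝ} {z : E n} {δ : ℝ}
    (hG : ContinuousOn G (closedBall 0 2)) (hcs : ContDiff ℝ ∞ c) (hc0 : ∀ z, 0 ≤ c z)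
    (hc4 : ∀ z, c z ≤ 1 / 4) (hc1 : ∀ z, 1 < ‖z‖ → c z = 0)
    (hcl : ∀ y z, |c y - c z| ≤ 1 / 2 * ‖y - z‖) (hcz : 0 < c z) (hδ : 0 ≤ δ)
    (hδ1 : 4 * CC n * δ < 1) (hA : Aff G δ z (4 * c z)) : LD n (Moll n G c) z := by
  obtain ⟨-, -, hS3, -⟩ := mollS n G c hG hcs hc0 hc4 hc1
  have hz1 : ‖z‖ ≤ 1 := by
    by_contra h
    rw [hc1 z (not_le.1 h)] at hcz
    exact lt_irrefl _ hcz
  have hev : ∀ᶠ y in 𝓝 z, ContDiffAt ℝ ∞ (Moll n G c) y := by
    have h1 : ∀ᶠ y in 𝓝 z, 0 < c y :=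
      hcs.continuous.continuousAt.eventually (lt_mem_nhds hcz)
    filter_upwards [h1] with y hy
    exact hS3 y hy
  obtain ⟨L, m, hm, h1, h3⟩ := hA
  have hD : HasFDerivAt (Moll n G c) (fderiv ℝ (Moll n G c) z) z :=
    (hev.self_of_nhds.differentiableAt (by simp)).hasFDerivAt
  have hC := CC_nonneg n
  have hsub : HasFDerivAt (fun y => Moll n G c y - L y) (fderiv ℝ (Moll n G c) z - L) z :=
    hD.sub L.hasFDerivAt
  have hbd : ‖fderiv ℝ (Moll n G c) z - L‖ ≤ 4 * CC n * δ * m := by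
    refine hsub.le_of_lip' (by positivity) ?_
    filter_upwards [ball_mem_nhds z hcz] with y hy
    rw [mem_ball, dist_eq_norm] at hy
    have key := aff_large (n := n) (L := L) (q := y) (hG.mono (closedBall_sub (a := 4 * c z) ?_))
      hc0 hcl hcz h3 hy.le
    · have e : Moll n G c y - L y - (Moll n G c z - L z) =
          Moll n G c y - Moll n G c z - L (y - z) := by
        rw [map_sub]
        abel
      rw [e]
      exact key
    · have := hc4 z
      linarith
  apply Pool.Agent.Y207.SH3.LD_of_pos hev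
  intro u hu h0
  have h4 := h1 u
  rw [hu, mul_one] at h4
  have h5 := (fderiv ℝ (Moll n G c) z - L).le_opNorm u
  rw [sub_apply, h0, zero_sub, norm_neg, hu, mul_one] at h5
  have h6 : m ≤ 4 * CC n * δ * m := h4.trans (h5.trans hbd)
  nlinarith

/-- a uniform scale on compact sets -/
theorem uniform {G : E n → E n} {S : Set (E n)} (hS : IsCompact S) (hA : ∀ z ∈ S, AAg G z)
    {δ : ℝ} (hδ : 0 < δ) : ∃ ρ : ℝ, 0 < ρ ∧ ∀ z ∈ S, ∀ r : ℝ, 0 < r → r < ρ → Aff G δ z r := by
  have h : ∀ z ∈ S, ∃ ρ : ℝ, 0 < ρ ∧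
      ∀ p, ‖p - z‖ < ρ → ∀ r : ℝ, 0 < r → r < ρ → Aff G δ p r := fun z hz => hA z hz δ hδ
  choose! ρ hρ H using h
  obtain ⟨t, ht, ht2⟩ := hS.elim_nhds_subcover (fun z => ball z (ρ z))
    (fun z hz => ball_mem_nhds z (hρ z hz))
  have hmin : ∃ ρ₀ : ℝ, 0 < ρ₀ ∧ ∀ z ∈ t, ρ₀ ≤ ρ z := by
    clear ht2
    induction t using Finset.induction_on with
    | empty => exact ⟨1, one_pos, by simp⟩
    | insert a t _ ih =>
      obtain ⟨ρ₀, h1, h2⟩ := ih (fun u hu => ht u (Finset.mem_insert_of_mem hu))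
      refine ⟨min ρ₀ (ρ a), lt_min h1 (hρ a (ht a (Finset.mem_insert_self _ _))), ?_⟩
      intro u hu
      rcases Finset.mem_insert.mp hu with rfl | hu
      · exact min_le_right _ _
      · exact (min_le_left _ _).trans (h2 u hu)
  obtain ⟨ρ₀, h1, h2⟩ := hmin
  refine ⟨ρ₀, h1, fun z hz r hr0 hr => ?_⟩
  obtain ⟨w, hw⟩ := mem_iUnion.1 (ht2 hz)
  obtain ⟨hwt, hzw⟩ := mem_iUnion.1 hw
  rw [mem_ball, dist_eq_norm] at hzw
  exact H w (ht w hwt) z hzw r hr0 (hr.trans_le (h2 w hwt))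

end Pool.Agent.Y247.AA
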