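import Pool.Agent.Y247.AA.Glob
import Pool.Agent.Y25.SH.StepV
import Pool.Agent.Y514.SH.Base
import Pool.Agent.Y702.SH.GlobV
import Pool.Agent.Y702.SH.ExtO
import Pool.Agent.Helper514.IoD
import Pool.Agent.Y522.Sch

/-!
# Smoothing of asymptotically affine embeddings with values in an open set
-/

set_option autoImplicit false

open Set Filter Topology Metric Function MeasureTheory
open scoped Manifold ContDiff

noncomputable section

namespace Pool.Agent.Y247.AA

open Pool.Agent.Y522 Pool.Agent.Y954.SH Pool.Agent.Y207.SH3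

variable {n : ℕ}

/-- one smoothing step, with values in an open set -/
theorem stepV (n : ℕ) (X : Type) [TopologicalSpace X] [T2Space X] [ChartedSpace (E n) X]
    (F : X → E n) (V : Set (E n)) (hVo : IsOpen V) (hVF : ∀ p, F p ∈ V) (A : E n → X)
    (hF : Continuous F) (hAi : InjOn A (closedBall 0 2))
    (hAd : ∀ z ∈ closedBall 0 2, LD n A z) (hAA : ∀ x, AAx F x) :
    ∃ F' : X → E n, Continuous F' ∧ (∀ p, p ∉ A '' closedBall 0 1 → F' p = F p) ∧
      (∀ p, F' p ∈ V) ∧ (∀ p, LD n F p → LD n F' p) ∧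
      (∀ z, ‖z‖ ≤ 1 / 2 → LD n F' (A z)) ∧ ∀ x, AAx F' x := by
  -- the bump function
  obtain ⟨χ, hχ⟩ : ∃ χ : E n → ℝ, χ = fun z => bmp n z := ⟨_, rfl⟩
  have hχs : ContDiff ℝ ∞ χ := by
    rw [hχ]
    exact (bmp n).contDiff
  have hχ0 : ∀ z, 0 ≤ χ z := by
    intro z
    rw [hχ]
    exact (bmp n).nonneg
  have hχ1 : ∀ z, χ z ≤ 1 := by
    intro z
    rw [hχ]
    exact (bmp n).le_one
  have hχz : ∀ z, 1 ≤ ‖z‖ → χ z = 0 := by
    intro z hz
    rw [hχ]
    exact (bmp n).zero_of_le_dist (by rw [dist_zero_right]; exact hz)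
  have hχp : ∀ z, ‖z‖ < 1 → 0 < χ z := by
    intro z hz
    rw [hχ]
    exact (bmp n).pos_of_mem_ball (by rw [mem_ball_zero_iff]; exact hz)
  obtain ⟨K, hK⟩ : ∃ K : NNReal, LipschitzWith K χ := by
    refine hχs.lipschitzWith_of_hasCompactSupport ?_ (by simp)
    rw [hχ]
    exact (bmp n).hasCompactSupport
  -- the map in the chart
  obtain ⟨G, hGd⟩ : ∃ G : E n → E n, G = fun z => F (A z) := ⟨_, rfl⟩
  have hG : ContinuousOn G (closedBall 0 2) := by
    intro z hz
    rw [hGd]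
    exact (hF.continuousAt.comp (hAd z hz).continuousAt).continuousWithinAt
  have hGA : ∀ z : E n, ‖z‖ ≤ 1 → AAg G z := by
    intro z hz
    rw [hGd]
    exact (hAA (A z)).germ rfl (hAd z (by rw [mem_closedBall_zero_iff]; linarith))
  obtain ⟨δ, hδ, hδV⟩ : ∃ δ : ℝ, 0 < δ ∧ thickening δ (G '' closedBall (0 : E n) 1) ⊆ V := by
    refine IsCompact.exists_thickening_subset_open ?_ hVo ?_
    · exact (isCompact_closedBall (0 : E n) 1).image_of_continuousOn
        (hG.mono (closedBall_subset_closedBall (by norm_num)))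
    · rintro _ ⟨z, -, rfl⟩
      rw [hGd]
      exact hVF _
  obtain ⟨δ', hδ', hδG⟩ : ∃ δ' : ℝ, 0 < δ' ∧ ∀ x ∈ closedBall (0 : E n) 2,
      ∀ y ∈ closedBall (0 : E n) 2, dist x y < δ' → dist (G x) (G y) < δ / 2 := by
    have hu := (isCompact_closedBall (0 : E n) 2).uniformContinuousOn_of_continuous hG
    rw [Metric.uniformContinuousOn_iff] at hu
    exact hu (δ / 2) (by linarith)
  -- the constants
  have hC := CC_nonneg n
  obtain ⟨δ₀, hδ₀, hδ₁⟩ : ∃ δ₀ : ℝ, 0 < δ₀ ∧ 4 * CC n * δ₀ < 1 := by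
    refine ⟨1 / (4 * CC n + 1), by positivity, ?_⟩
    rw [mul_one_div, div_lt_one (by positivity)]
    linarith
  obtain ⟨ρ₂, hρ₂, hunif₂⟩ := uniform (isCompact_closedBall (0 : E n) 1)
    (fun z hz => hGA z (mem_closedBall_zero_iff.1 hz)) hδ₀
  obtain ⟨ρ₁, hρ₁, hρ₁₂, hρ₁δ⟩ : ∃ ρ₁ : ℝ, 0 < ρ₁ ∧ ρ₁ ≤ ρ₂ ∧ ρ₁ ≤ δ' :=
    ⟨min ρ₂ δ', lt_min hρ₂ hδ', min_le_left _ _, min_le_right _ _⟩
  have hunif : ∀ z ∈ closedBall (0 : E n) 1, ∀ r : ℝ, 0 < r → r < ρ₁ → Aff G δ₀ z r :=
    fun z hz r hr0 hr => hunif₂ z hz r hr0 (hr.trans_le hρ₁₂)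
  have hKp : (0 : ℝ) < K + 1 := by
    have := K.coe_nonneg
    linarith
  obtain ⟨ε, hεpos, hε4, hεK, hερ⟩ : ∃ ε : ℝ, 0 < ε ∧ ε ≤ 1 / 4 ∧ ε * K ≤ 1 / 2 ∧
      4 * ε < ρ₁ := by
    refine ⟨min (ρ₁ / 5) (min (1 / 4) (1 / 2 / (K + 1))),
      lt_min (by linarith) (lt_min (by norm_num) (by positivity)),
      (min_le_right _ _).trans (min_le_left _ _), ?_, ?_⟩
    · have h1 : min (ρ₁ / 5) (min (1 / 4) (1 / 2 / ((K : ℝ) + 1))) ≤ 1 / 2 / (K + 1) :=
        (min_le_right _ _).trans (min_le_right _ _)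
      calc min (ρ₁ / 5) (min (1 / 4) (1 / 2 / ((K : ℝ) + 1))) * (K : ℝ)
          ≤ 1 / 2 / (K + 1) * K := mul_le_mul_of_nonneg_right h1 K.coe_nonneg
        _ ≤ 1 / 2 / (K + 1) * (K + 1) := by
            apply mul_le_mul_of_nonneg_left (by linarith)
            positivity
        _ = 1 / 2 := div_mul_cancel₀ _ hKp.ne'
    · have h1 : min (ρ₁ / 5) (min (1 / 4) (1 / 2 / ((K : ℝ) + 1))) ≤ ρ₁ / 5 := min_le_left _ _
      linarith
  obtain ⟨c, hc⟩ : ∃ c : E n → ℝ, c = fun z => ε * χ z := ⟨_, rfl⟩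
  have hcs : ContDiff ℝ ∞ c := by
    rw [hc]
    exact contDiff_const.mul hχs
  have hc0 : ∀ z, 0 ≤ c z := by
    intro z
    rw [hc]
    exact mul_nonneg hεpos.le (hχ0 z)
  have hcε : ∀ z, c z ≤ ε := by
    intro z
    rw [hc]
    calc ε * χ z ≤ ε * 1 := mul_le_mul_of_nonneg_left (hχ1 z) hεpos.le
      _ = ε := mul_one _
  have hc4 : ∀ z, c z ≤ 1 / 4 := fun z => (hcε z).trans hε4
  have hcz : ∀ z, 1 ≤ ‖z‖ → c z = 0 := by
    intro z hz
    rw [hc]
    change ε * χ z = 0
    rw [hχz z hz, mul_zero]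
  have hc1 : ∀ z, 1 < ‖z‖ → c z = 0 := fun z hz => hcz z hz.le
  have hcδ : ∀ z, c z < δ' := by
    intro z
    have := hcε z
    linarith
  have hcp : ∀ z, ‖z‖ < 1 → 0 < c z := by
    intro z hz
    rw [hc]
    exact mul_pos hεpos (hχp z hz)
  have hcL : ∀ y z, |c y - c z| ≤ 1 / 2 * ‖y - z‖ := by
    intro y z
    rw [hc]
    change |ε * χ y - ε * χ z| ≤ _
    rw [← mul_sub, abs_mul, abs_of_pos hεpos]
    have h1 : |χ y - χ z| ≤ K * ‖y - z‖ := by
      have h2 := hK.dist_le_mul y z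
      rwa [Real.dist_eq, dist_eq_norm] at h2
    calc ε * |χ y - χ z| ≤ ε * (K * ‖y - z‖) := mul_le_mul_of_nonneg_left h1 hεpos.le
      _ = (ε * K) * ‖y - z‖ := by ring
      _ ≤ 1 / 2 * ‖y - z‖ := mul_le_mul_of_nonneg_right hεK (norm_nonneg _)
  obtain ⟨hS1, hS2, hS3, hS4⟩ := mollS n G c hG hcs hc0 hc4 hc1
  have hin : ∀ z : E n, ‖z‖ ≤ 1 → ∀ s : E n, ‖s‖ ≤ 1 → ‖z + c z • s‖ ≤ 3 / 2 := by
    intro z hz s hs
    calc ‖z + c z • s‖ ≤ ‖z‖ + ‖c z • s‖ := norm_add_le _ _
      _ = ‖z‖ + c z * ‖s‖ := by rw [norm_smul, Real.norm_of_nonneg (hc0 z)]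
      _ ≤ 1 + 1 / 4 * 1 := by
          apply add_le_add hz
          exact mul_le_mul (hc4 z) hs (norm_nonneg _) (by norm_num)
      _ ≤ 3 / 2 := by norm_num
  have hpos : ∀ z, 0 < c z → LD n (Moll n G c) z := by
    intro z hz
    have hz1 : ‖z‖ ≤ 1 := by
      by_contra h
      rw [hc1 z (not_le.1 h)] at hz
      exact lt_irrefl _ hz
    have hK' := hunif z (mem_closedBall_zero_iff.2 hz1) (4 * c z) (by linarith)
      (by have := hcε z; linarith)
    exact nondeg hG hcs hc0 hc4 hc1 hcL hz hδ₀.le hδ₁ hK'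
  -- the new map
  have hMF : ∀ z : E n, ‖z‖ ≤ 2 → MF A c F (A z) = Moll n G c z := by
    intro z hz
    rw [hGd]
    exact MF_of hAi hc1 hz
  have hcl : IsClosed (A '' closedBall (0 : E n) 1) := by
    apply IsCompact.isClosed
    apply (isCompact_closedBall (0 : E n) 1).image_of_continuousOn
    intro z hz
    exact (hAd z (closedBall_subset_closedBall (by norm_num) hz)).continuousAt.continuousWithinAt
  have hloc : ∀ z : E n, ‖z‖ ≤ 1 → ∃ p : X → E n, LD n p (A z) ∧ p (A z) = z ∧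
      MF A c F =ᶠ[𝓝 (A z)] fun w => Moll n G c (p w) := by
    intro z hz
    obtain ⟨p, hp1, hp2, hp3, hp4⟩ :=
      (hAd z (by rw [mem_closedBall_zero_iff]; linarith)).exists_inverse
    refine ⟨p, hp1, hp2, ?_⟩
    have h1 : ∀ᶠ w in 𝓝 (A z), ‖p w‖ < 2 := by
      refine hp1.continuousAt.norm.eventually (p := fun r : ℝ => r < 2) ?_
      change ∀ᶠ y in 𝓝 ‖p (A z)‖, y < 2
      rw [hp2]
      exact gt_mem_nhds (by linarith)
    filter_upwards [h1, hp4] with w hw1 hw2
    rw [← hMF (p w) hw1.le, hw2]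
  have hoff : ∀ x, x ∉ A '' closedBall (0 : E n) 1 → MF A c F =ᶠ[𝓝 x] F := by
    intro x hx
    filter_upwards [hcl.isOpen_compl.mem_nhds hx] with y hy
    exact MF_off hy
  have hLD : ∀ z : E n, ‖z‖ ≤ 1 → LD n (Moll n G c) z → LD n (MF A c F) (A z) := by
    intro z hz h
    obtain ⟨p, hp1, hp2, hp3⟩ := hloc z hz
    refine LD.congr ?_ hp3
    refine LD.comp_fun ?_ hp1
    rw [hp2]
    exact h
  refine ⟨MF A c F, ?_, ?_, ?_, ?_, ?_, ?_⟩
  · -- continuity
    rw [continuous_iff_continuousAt]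
    intro x
    by_cases hx : x ∈ A '' closedBall (0 : E n) 1
    · obtain ⟨z, hz, rfl⟩ := hx
      rw [mem_closedBall_zero_iff] at hz
      obtain ⟨p, hp1, hp2, hp3⟩ := hloc z hz
      rw [continuousAt_congr hp3]
      have h1 : ContinuousAt (Moll n G c) (p (A z)) := by
        rw [hp2]
        apply hS1.continuousAt
        refine mem_of_superset (ball_mem_nhds z (ε := 1 / 2) (by norm_num)) ?_
        intro y hy
        rw [mem_ball, dist_eq_norm] at hy
        rw [mem_closedBall_zero_iff]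
        have h2 := norm_le_norm_add_norm_sub' y z
        linarith
      exact h1.comp hp1.continuousAt
    · rw [continuousAt_congr (hoff x hx)]
      exact hF.continuousAt
  · intro p hp
    exact MF_off hp
  · intro x
    by_cases hx : x ∈ A '' closedBall (0 : E n) 1
    · obtain ⟨z, hz, rfl⟩ := hx
      have hz' := hz
      rw [mem_closedBall_zero_iff] at hz
      rw [hMF z (by linarith)]
      apply hδV
      rw [mem_thickening_iff]
      refine ⟨G z, ⟨z, hz', rfl⟩, ?_⟩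
      rw [dist_eq_norm]
      unfold Moll
      refine (Pool.Agent.Y25.SH.norm_mean_sub_le (r := δ / 2) ?_ ?_).trans_lt (by linarith)
      · refine hG.comp (by fun_prop) ?_
        intro s hs
        rw [mem_closedBall_zero_iff] at hs ⊢
        exact (hin z hz s hs).trans (by norm_num)
      · intro s hs
        rw [← dist_eq_norm]
        refine (hδG _ ?_ _ ?_ ?_).le
        · rw [mem_closedBall_zero_iff]
          exact (hin z hz s hs).trans (by norm_num)
        · rw [mem_closedBall_zero_iff]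
          linarith
        · rw [dist_eq_norm, add_sub_cancel_left, norm_smul, Real.norm_of_nonneg (hc0 z)]
          calc c z * ‖s‖ ≤ c z * 1 := mul_le_mul_of_nonneg_left hs (hc0 z)
            _ < δ' := by
              rw [mul_one]
              exact hcδ z
    · rw [MF_off hx]
      exact hVF x
  · intro x hx
    by_cases hxA : x ∈ A '' closedBall (0 : E n) 1
    · obtain ⟨z, hz, rfl⟩ := hxA
      rw [mem_closedBall_zero_iff] at hz
      apply hLD z hz
      rcases (hc0 z).lt_or_eq with h | h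
      · exact hpos z h
      · have hGz : LD n G z := by
          rw [hGd]
          exact LD.comp_fun hx (hAd z (by rw [mem_closedBall_zero_iff]; linarith))
        have hev : ∀ᶠ y in 𝓝 z, ContDiffAt ℝ ∞ G y := by
          filter_upwards [hGz.eventually] with y hy
          exact hy.contDiffAt
        obtain ⟨h1, h2⟩ := hS4 z hz h.symm hev
        obtain ⟨e, he⟩ := hGz.exists_equiv
        refine LD_of_contDiffAt ?_ e ?_
        · filter_upwards [eventually_eventually_nhds.2 hev] with y hy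
          rcases (hc0 y).lt_or_eq with h3 | h3
          · exact hS3 y h3
          · rcases le_or_gt ‖y‖ 1 with h4 | h4
            · exact (hS4 y h4 h3.symm hy).1
            · refine hy.self_of_nhds.congr_of_eventuallyEq ?_
              have h5 : ∀ᶠ w in 𝓝 y, 1 < ‖w‖ := continuous_norm.continuousAt.eventually
                (lt_mem_nhds h4)
              filter_upwards [h5] with w hw
              exact hS2 w (hc1 w hw)
        · rw [← he.fderiv, ← h2]
          exact (h1.differentiableAt (by simp)).hasFDerivAt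
    · exact LD.congr hx (hoff x hxA)
  · intro z hz
    exact hLD z (by linarith) (hpos z (hcp z (by linarith)))
  · intro x
    by_cases hxA : x ∈ A '' closedBall (0 : E n) 1
    · obtain ⟨z, hz, rfl⟩ := hxA
      rw [mem_closedBall_zero_iff] at hz
      rcases (hc0 z).lt_or_eq with h | h
      · exact AAx.of_LD (hLD z hz (hpos z h))
      · refine ⟨A, z, rfl, hAd z (by rw [mem_closedBall_zero_iff]; linarith), ?_⟩
        refine (pres hG hc0 hcL hz h.symm (hGA z hz)).congr ?_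
        filter_upwards [ball_mem_nhds z one_pos] with y hy
        rw [mem_ball, dist_eq_norm] at hy
        apply hMF
        have := norm_le_norm_add_norm_sub' y z
        linarith
    · exact (hAA x).congr (hoff x hxA)


theorem globV (n : ℕ) (X : Type) [TopologicalSpace X] [T2Space X] [ChartedSpace (E n) X]
    (F : X → E n) (hF : IsOpenEmbedding F) (hconn : IsPreconnected (range F))
    (hD : ∀ x, AAx F x) (hK : IsCompact {x | ¬ LD n F x}) :
    ∃ (F' : X → E n) (C : Set X), IsCompact C ∧ Continuous F' ∧ Injective F' ∧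
      range F' = range F ∧ (∀ p, p ∉ C → F' p = F p) ∧ ∀ x, LD n F' x := by
  have h1 : ∀ x, ∃ B : E n → X, B 0 = x ∧
      InjOn B (closedBall 0 2) ∧ ∀ z ∈ closedBall (0 : E n) 2, LD n B z :=
    fun x => chart (hD x)
  choose B hB0 hBi hBd using h1
  have hU : ∀ x (_ : x ∈ {x | ¬ LD n F x}), B x '' ball 0 (1 / 2) ∈ 𝓝 x := by
    intro x _
    have h2 : LD n (B x) 0 := hBd x 0 (by simp)
    have h3 := h2.image_mem_nhds (ball_mem_nhds (0 : E n) (by norm_num : (0 : ℝ) < 1 / 2))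
    rwa [hB0 x] at h3
  obtain ⟨t, ht⟩ := hK.elim_nhds_subcover' (fun x _ => B x '' ball 0 (1 / 2)) hU
  set N := t.card with hN
  set A : Fin N → E n → X := fun j => B ((t.equivFin.symm j).1 : X) with hA
  have hAi : ∀ j, InjOn (A j) (closedBall 0 2) := fun j => hBi _
  have hAd : ∀ j, ∀ z ∈ closedBall (0 : E n) 2, LD n (A j) z := fun j => hBd _
  have hcov : ∀ x, ¬ LD n F x → ∃ j z, ‖z‖ ≤ 1 / 2 ∧ A j z = x := by
    intro x hx
    have h2 := ht hx
    rw [mem_iUnion₂] at h2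
    obtain ⟨y, hy, z, hz, hzx⟩ := h2
    refine ⟨t.equivFin ⟨y, hy⟩, z, ?_, ?_⟩
    · rw [mem_ball_zero_iff] at hz
      exact hz.le
    · simp only [hA, Equiv.symm_apply_apply]
      exact hzx
  have hF1 : ∀ p, F p ∈ range F := fun p => mem_range_self p
  -- the induction
  have key : ∀ i : ℕ, i ≤ N → ∃ F' : X → E n, Continuous F' ∧ (∀ p, F' p ∈ range F) ∧
      (∀ p, (∀ j, p ∉ A j '' closedBall 0 1) → F' p = F p) ∧ (∀ p, LD n F p → LD n F' p) ∧
      (∀ j : Fin N, (j : ℕ) < i → ∀ z, ‖z‖ ≤ 1 / 2 → LD n F' (A j z)) ∧ ∀ x, AAx F' x := by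
    intro i
    induction i with
    | zero =>
      intro _
      exact ⟨F, hF.continuous, hF1, fun _ _ => rfl, fun _ h => h, fun j hj => absurd hj (by omega),
        hD⟩
    | succ i ih =>
      intro hi
      obtain ⟨F', h2, h3, h4, h5, h6, h7⟩ := ih (by omega)
      obtain ⟨F'', g1, g2, g3, g4, g5, g6⟩ := stepV n X F' (range F) hF.isOpen_range h3
        (A ⟨i, by omega⟩) h2 (hAi _) (hAd _) h7
      refine ⟨F'', g1, g3, ?_, fun p hp => g4 p (h5 p hp), ?_, g6⟩
      · intro p hp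
        rw [g2 p (hp _), h4 p hp]
      · intro j hj z hz
        rcases Nat.lt_succ_iff_lt_or_eq.1 hj with h8 | h8
        · exact g4 _ (h6 j h8 z hz)
        · have h9 : j = ⟨i, by omega⟩ := Fin.ext h8
          rw [h9]
          exact g5 z hz
  obtain ⟨F', h2, h3, h4, h5, h6, -⟩ := key N le_rfl
  set C : Set X := ⋃ j, A j '' closedBall 0 1 with hCdef
  have hCc : IsCompact C := by
    apply isCompact_iUnion
    intro j
    apply (isCompact_closedBall _ _).image_of_continuousOn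
    intro z hz
    exact (hAd j z (closedBall_subset_closedBall (by norm_num) hz)).continuousAt.continuousWithinAt
  have h7 : ∀ p, p ∉ C → F' p = F p := by
    intro p hp
    apply h4
    intro j hj
    exact hp (mem_iUnion.2 ⟨j, hj⟩)
  have h8 : ∀ x, LD n F' x := by
    intro x
    by_cases hx : LD n F x
    · exact h5 x hx
    · obtain ⟨j, z, hz, rfl⟩ := hcov x hx
      exact h6 j j.2 z hz
  obtain ⟨h9, h10⟩ := Pool.Agent.Y702.SH.coverV n X F F' C hF hconn hCc h7 h3 h8
  exact ⟨F', C, hCc, h2, h9, h10, h7, h8⟩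


/-- Schoenflies theorem for asymptotically affine balls. -/
theorem sch (n : ℕ) (H : E n → E n) (δ : ℝ) (hδ : 0 < δ) (hHc : ContinuousOn H (ball 0 (1 + δ)))
    (hHi : InjOn H (ball 0 (1 + δ))) (hHL : ∀ x, 1 ≤ ‖x‖ → ‖x‖ < 1 + δ → LD n H x)
    (hD : ∀ x, ‖x‖ < 1 → AAg H x) :
    ∃ (G : E n → E n) (O : E n ≃ₗᵢ[ℝ] E n) (R' : ℝ), Bijective G ∧
      (∀ x, LD n G x) ∧ (∀ x, ‖x‖ = 1 → G x = H x) ∧
      G '' closedBall 0 1 = H '' closedBall 0 1 ∧ ∀ x, R' ≤ ‖x‖ → G x = O x := by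
  have hsub : ball (0 : E n) 1 ⊆ ball 0 (1 + δ) := ball_subset_ball (by linarith)
  have hFc : Continuous (fun y => H (Pool.Agent.Y514.SH.UB n y)) := by
    have h1 : ContinuousOn H (ball 0 1) := hHc.mono hsub
    exact h1.comp_continuous (Pool.Agent.Y514.SH.UB_continuous n)
      fun x => mem_ball_zero_iff.2 (Pool.Agent.Y514.SH.UB_norm _ x)
  have hFi : Injective (fun y => H (Pool.Agent.Y514.SH.UB n y)) := by
    intro x y hxy
    exact Pool.Agent.Y514.SH.UB_inj n
      (hHi (hsub (mem_ball_zero_iff.2 (Pool.Agent.Y514.SH.UB_norm _ x)))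
      (hsub (mem_ball_zero_iff.2 (Pool.Agent.Y514.SH.UB_norm _ y))) hxy)
  have hFo : IsOpenMap (fun y => H (Pool.Agent.Y514.SH.UB n y)) := by
    refine IsOpenMap.of_nhds_le fun x s hs => ?_
    obtain ⟨r, hr, hrs⟩ := Metric.nhds_basis_closedBall.mem_iff.1 (Filter.mem_map.1 hs)
    have h1 := Pool.Agent.Helper514.IoD.image_mem_nhds
      (fun y => H (Pool.Agent.Y514.SH.UB n y)) x r hr hFc.continuousOn hFi.injOn
    refine mem_of_superset h1 ?_
    rintro _ ⟨y, hy, rfl⟩
    exact hrs hy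
  obtain ⟨F', C, hC, -, hF'i, hF'r, hF'C, hF'L⟩ := globV n (E n)
    (fun y => H (Pool.Agent.Y514.SH.UB n y))
    (IsOpenEmbedding.of_continuous_injective_isOpenMap hFc hFi hFo)
    (isPreconnected_range hFc) (by
      intro x
      refine ⟨fun y => y, x, rfl, LD.id x, ?_⟩
      exact AAg.comp (hD _ (Pool.Agent.Y514.SH.UB_norm n x)) (Pool.Agent.Y514.SH.UB_LD n x))
    (Pool.Agent.Y514.SH.isCompact_bad n H fun x hx => hHL x hx.ge (by linarith))
  exact Pool.Agent.Y514.SH.finish Pool.Agent.Y702.SH.extO n H δ hδ hHi hHL F' C hC hF'i hF'r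
    hF'C hF'L

end Pool.Agent.Y247.AA
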