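import Pool.Agent.Y247.AA.Pres
import Pool.Agent.Y522.Tools

/-!
# One smoothing step for asymptotically affine maps
-/

set_option autoImplicit false

open Set Filter Topology Metric Function MeasureTheory
open scoped Manifold ContDiff

noncomputable section

namespace Pool.Agent.Y247.AA

open Pool.Agent.Y522 Pool.Agent.Y954.SH Pool.Agent.Y207.SH3

variable {n : ℕ}

section defs

variable {X : Type} [TopologicalSpace X] [ChartedSpace (E n) X]

/-- `F` is asymptotically affine at `x`, in some parametrization -/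
def AAx (F : X → E n) (x : X) : Prop :=
  ∃ (A : E n → X) (z : E n), A z = x ∧ LD n A z ∧ AAg (fun y => F (A y)) z

theorem AAx.congr {F F' : X → E n} {x : X} (h : AAx F x) (hF : F' =ᶠ[𝓝 x] F) : AAx F' x := by
  obtain ⟨A, z, rfl, hA, hg⟩ := h
  exact ⟨A, z, rfl, hA, hg.congr (hA.continuousAt hF)⟩

theorem AAx.of_LD {F : X → E n} {x : X} (h : LD n F x) : AAx F x := by
  obtain ⟨p, h1, h2, h3, h4⟩ := h.exists_inverse
  exact ⟨p, F x, h2, h1, (AAg.id (F x)).congr h4⟩

theorem AAx.germ {F : X → E n} {x : X} (h : AAx F x) {B : E n → X} {w : E n} (hB : B w = x)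
    (hBd : LD n B w) : AAg (fun y => F (B y)) w := by
  obtain ⟨A, z, hz, hA, hg⟩ := h
  have hzB : A z = B w := hz.trans hB.symm
  obtain ⟨p, h1, h2, -, h4⟩ := hA.exists_inverse
  rw [hzB] at h1 h2 h4
  obtain ⟨T, hTd⟩ : ∃ T : E n → E n, T = fun y => p (B y) := ⟨_, rfl⟩
  have hT : LD n T w := by
    rw [hTd]
    exact LD.comp_fun h1 hBd
  have hw : T w = z := by
    rw [hTd]
    exact h2
  obtain ⟨G, hGd⟩ : ∃ G : E n → E n, G = fun y => F (A y) := ⟨_, rfl⟩
  have hg' : AAg G (T w) := by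
    rw [hw, hGd]
    exact hg
  have h5 : AAg (fun y => G (T y)) w := AAg.comp hg' hT
  have h6 : ∀ᶠ y in 𝓝 w, A (p (B y)) = B y := hBd.continuousAt.eventually h4
  apply h5.congr
  filter_upwards [h6] with y hy
  rw [hGd, hTd]
  change F (B y) = F (A (p (B y)))
  rw [hy]

end defs

/-- one smoothing step -/
theorem step (n : ℕ) (X : Type) [TopologicalSpace X] [T2Space X] [ChartedSpace (E n) X]
    (F : X → E n) (A : E n → X) (hF : Continuous F) (hAi : InjOn A (closedBall 0 2))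
    (hAd : ∀ z ∈ closedBall 0 2, LD n A z) (hAA : ∀ x, AAx F x) :
    ∃ F' : X → E n, Continuous F' ∧ (∀ p, p ∉ A '' closedBall 0 1 → F' p = F p) ∧
      ((∀ p, ‖F p‖ < 1) → ∀ p, ‖F' p‖ < 1) ∧ (∀ p, LD n F p → LD n F' p) ∧
      (∀ z, ‖z‖ ≤ 1 / 2 → LD n F' (A z)) ∧ ∀ x, AAx F' x := by
  -- the bump function
  obtain ⟨χ, hχ⟩ : ∃ χ : E n → ℝ, χ = fun z => bmp n z := ⟨_, rfl⟩
  have hχs : ContDiff ℝ ∞ χ := by
    rw [hχ]
    exact (bmp n).contDiff
  have hχ0 : ∀ z, 0 ≤ χ z := by
    intro z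
    rw [hχ]
    exact (bmp n).nonneg
  have hχ1 : ∀ z, χ z ≤ 1 := by
    intro z
    rw [hχ]
    exact (bmp n).le_one
  have hχz : ∀ z, 1 ≤ ‖z‖ → χ z = 0 := by
    intro z hz
    rw [hχ]
    exact (bmp n).zero_of_le_dist (by rw [dist_zero_right]; exact hz)
  have hχp : ∀ z, ‖z‖ < 1 → 0 < χ z := by
    intro z hz
    rw [hχ]
    exact (bmp n).pos_of_mem_ball (by rw [mem_ball_zero_iff]; exact hz)
  obtain ⟨K, hK⟩ : ∃ K : NNReal, LipschitzWith K χ := by
    refine hχs.lipschitzWith_of_hasCompactSupport ?_ (by simp)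
    rw [hχ]
    exact (bmp n).hasCompactSupport
  -- the map in the chart
  obtain ⟨G, hGd⟩ : ∃ G : E n → E n, G = fun z => F (A z) := ⟨_, rfl⟩
  have hG : ContinuousOn G (closedBall 0 2) := by
    intro z hz
    rw [hGd]
    exact (hF.continuousAt.comp (hAd z hz).continuousAt).continuousWithinAt
  have hGA : ∀ z : E n, ‖z‖ ≤ 1 → AAg G z := by
    intro z hz
    rw [hGd]
    exact (hAA (A z)).germ rfl (hAd z (by rw [mem_closedBall_zero_iff]; linarith))
  -- the constants
  have hC := CC_nonneg n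
  obtain ⟨δ₀, hδ₀, hδ₁⟩ : ∃ δ₀ : ℝ, 0 < δ₀ ∧ 4 * CC n * δ₀ < 1 := by
    refine ⟨1 / (4 * CC n + 1), by positivity, ?_⟩
    rw [mul_one_div, div_lt_one (by positivity)]
    linarith
  obtain ⟨ρ₁, hρ₁, hunif⟩ := uniform (isCompact_closedBall (0 : E n) 1)
    (fun z hz => hGA z (mem_closedBall_zero_iff.1 hz)) hδ₀
  have hKp : (0 : ℝ) < K + 1 := by
    have := K.coe_nonneg
    linarith
  obtain ⟨ε, hεpos, hε4, hεK, hερ⟩ : ∃ ε : ℝ, 0 < ε ∧ ε ≤ 1 / 4 ∧ ε * K ≤ 1 / 2 ∧
      4 * ε < ρ₁ := by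
    refine ⟨min (ρ₁ / 5) (min (1 / 4) (1 / 2 / (K + 1))),
      lt_min (by linarith) (lt_min (by norm_num) (by positivity)),
      (min_le_right _ _).trans (min_le_left _ _), ?_, ?_⟩
    · have h1 : min (ρ₁ / 5) (min (1 / 4) (1 / 2 / ((K : ℝ) + 1))) ≤ 1 / 2 / (K + 1) :=
        (min_le_right _ _).trans (min_le_right _ _)
      calc min (ρ₁ / 5) (min (1 / 4) (1 / 2 / ((K : ℝ) + 1))) * (K : ℝ)
          ≤ 1 / 2 / (K + 1) * K := mul_le_mul_of_nonneg_right h1 K.coe_nonneg
        _ ≤ 1 / 2 / (K + 1) * (K + 1) := by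
            apply mul_le_mul_of_nonneg_left (by linarith)
            positivity
        _ = 1 / 2 := div_mul_cancel₀ _ hKp.ne'
    · have h1 : min (ρ₁ / 5) (min (1 / 4) (1 / 2 / ((K : ℝ) + 1))) ≤ ρ₁ / 5 := min_le_left _ _
      linarith
  obtain ⟨c, hc⟩ : ∃ c : E n → ℝ, c = fun z => ε * χ z := ⟨_, rfl⟩
  have hcs : ContDiff ℝ ∞ c := by
    rw [hc]
    exact contDiff_const.mul hχs
  have hc0 : ∀ z, 0 ≤ c z := by
    intro z
    rw [hc]
    exact mul_nonneg hεpos.le (hχ0 z)
  have hcε : ∀ z, c z ≤ ε := by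
    intro z
    rw [hc]
    calc ε * χ z ≤ ε * 1 := mul_le_mul_of_nonneg_left (hχ1 z) hεpos.le
      _ = ε := mul_one _
  have hc4 : ∀ z, c z ≤ 1 / 4 := fun z => (hcε z).trans hε4
  have hcz : ∀ z, 1 ≤ ‖z‖ → c z = 0 := by
    intro z hz
    rw [hc]
    change ε * χ z = 0
    rw [hχz z hz, mul_zero]
  have hc1 : ∀ z, 1 < ‖z‖ → c z = 0 := fun z hz => hcz z hz.le
  have hcp : ∀ z, ‖z‖ < 1 → 0 < c z := by
    intro z hz
    rw [hc]
    exact mul_pos hεpos (hχp z hz)
  have hcL : ∀ y z, |c y - c z| ≤ 1 / 2 * ‖y - z‖ := by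
    intro y z
    rw [hc]
    change |ε * χ y - ε * χ z| ≤ _
    rw [← mul_sub, abs_mul, abs_of_pos hεpos]
    have h1 : |χ y - χ z| ≤ K * ‖y - z‖ := by
      have h2 := hK.dist_le_mul y z
      rwa [Real.dist_eq, dist_eq_norm] at h2
    calc ε * |χ y - χ z| ≤ ε * (K * ‖y - z‖) := mul_le_mul_of_nonneg_left h1 hεpos.le
      _ = (ε * K) * ‖y - z‖ := by ring
      _ ≤ 1 / 2 * ‖y - z‖ := mul_le_mul_of_nonneg_right hεK (norm_nonneg _)
  obtain ⟨hS1, hS2, hS3, hS4⟩ := mollS n G c hG hcs hc0 hc4 hc1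
  have hin : ∀ z : E n, ‖z‖ ≤ 1 → ∀ s : E n, ‖s‖ ≤ 1 → ‖z + c z • s‖ ≤ 3 / 2 := by
    intro z hz s hs
    calc ‖z + c z • s‖ ≤ ‖z‖ + ‖c z • s‖ := norm_add_le _ _
      _ = ‖z‖ + c z * ‖s‖ := by rw [norm_smul, Real.norm_of_nonneg (hc0 z)]
      _ ≤ 1 + 1 / 4 * 1 := by
          apply add_le_add hz
          exact mul_le_mul (hc4 z) hs (norm_nonneg _) (by norm_num)
      _ ≤ 3 / 2 := by norm_num
  have hpos : ∀ z, 0 < c z → LD n (Moll n G c) z := by
    intro z hz
    have hz1 : ‖z‖ ≤ 1 := by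
      by_contra h
      rw [hc1 z (not_le.1 h)] at hz
      exact lt_irrefl _ hz
    have hK' := hunif z (mem_closedBall_zero_iff.2 hz1) (4 * c z) (by linarith)
      (by have := hcε z; linarith)
    exact nondeg hG hcs hc0 hc4 hc1 hcL hz hδ₀.le hδ₁ hK'
  -- the new map
  have hMF : ∀ z : E n, ‖z‖ ≤ 2 → MF A c F (A z) = Moll n G c z := by
    intro z hz
    rw [hGd]
    exact MF_of hAi hc1 hz
  have hcl : IsClosed (A '' closedBall (0 : E n) 1) := by
    apply IsCompact.isClosed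
    apply (isCompact_closedBall (0 : E n) 1).image_of_continuousOn
    intro z hz
    exact (hAd z (closedBall_subset_closedBall (by norm_num) hz)).continuousAt.continuousWithinAt
  have hloc : ∀ z : E n, ‖z‖ ≤ 1 → ∃ p : X → E n, LD n p (A z) ∧ p (A z) = z ∧
      MF A c F =ᶠ[𝓝 (A z)] fun w => Moll n G c (p w) := by
    intro z hz
    obtain ⟨p, hp1, hp2, hp3, hp4⟩ :=
      (hAd z (by rw [mem_closedBall_zero_iff]; linarith)).exists_inverse
    refine ⟨p, hp1, hp2, ?_⟩
    have h1 : ∀ᶠ w in 𝓝 (A z), ‖p w‖ < 2 := by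
      refine hp1.continuousAt.norm.eventually (p := fun r : ℝ => r < 2) ?_
      change ∀ᶠ y in 𝓝 ‖p (A z)‖, y < 2
      rw [hp2]
      exact gt_mem_nhds (by linarith)
    filter_upwards [h1, hp4] with w hw1 hw2
    rw [← hMF (p w) hw1.le, hw2]
  have hoff : ∀ x, x ∉ A '' closedBall (0 : E n) 1 → MF A c F =ᶠ[𝓝 x] F := by
    intro x hx
    filter_upwards [hcl.isOpen_compl.mem_nhds hx] with y hy
    exact MF_off hy
  have hLD : ∀ z : E n, ‖z‖ ≤ 1 → LD n (Moll n G c) z → LD n (MF A c F) (A z) := by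
    intro z hz h
    obtain ⟨p, hp1, hp2, hp3⟩ := hloc z hz
    refine LD.congr ?_ hp3
    refine LD.comp_fun ?_ hp1
    rw [hp2]
    exact h
  refine ⟨MF A c F, ?_, ?_, ?_, ?_, ?_, ?_⟩
  · -- continuity
    rw [continuous_iff_continuousAt]
    intro x
    by_cases hx : x ∈ A '' closedBall (0 : E n) 1
    · obtain ⟨z, hz, rfl⟩ := hx
      rw [mem_closedBall_zero_iff] at hz
      obtain ⟨p, hp1, hp2, hp3⟩ := hloc z hz
      rw [continuousAt_congr hp3]
      have h1 : ContinuousAt (Moll n G c) (p (A z)) := by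
        rw [hp2]
        apply hS1.continuousAt
        refine mem_of_superset (ball_mem_nhds z (ε := 1 / 2) (by norm_num)) ?_
        intro y hy
        rw [mem_ball, dist_eq_norm] at hy
        rw [mem_closedBall_zero_iff]
        have h2 := norm_le_norm_add_norm_sub' y z
        linarith
      exact h1.comp hp1.continuousAt
    · rw [continuousAt_congr (hoff x hx)]
      exact hF.continuousAt
  · intro p hp
    exact MF_off hp
  · intro hlt x
    by_cases hx : x ∈ A '' closedBall (0 : E n) 1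
    · obtain ⟨z, hz, rfl⟩ := hx
      rw [mem_closedBall_zero_iff] at hz
      rw [hMF z (by linarith)]
      unfold Moll
      apply norm_mean_lt
      · refine hG.comp (by fun_prop) ?_
        intro s hs
        rw [mem_closedBall_zero_iff] at hs ⊢
        exact (hin z hz s hs).trans (by norm_num)
      · intro s _
        rw [hGd]
        exact hlt _
    · rw [MF_off hx]
      exact hlt x
  · intro x hx
    by_cases hxA : x ∈ A '' closedBall (0 : E n) 1
    · obtain ⟨z, hz, rfl⟩ := hxA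
      rw [mem_closedBall_zero_iff] at hz
      apply hLD z hz
      rcases (hc0 z).lt_or_eq with h | h
      · exact hpos z h
      · have hGz : LD n G z := by
          rw [hGd]
          exact LD.comp_fun hx (hAd z (by rw [mem_closedBall_zero_iff]; linarith))
        have hev : ∀ᶠ y in 𝓝 z, ContDiffAt ℝ ∞ G y := by
          filter_upwards [hGz.eventually] with y hy
          exact hy.contDiffAt
        obtain ⟨h1, h2⟩ := hS4 z hz h.symm hev
        obtain ⟨e, he⟩ := hGz.exists_equiv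
        refine LD_of_contDiffAt ?_ e ?_
        · filter_upwards [eventually_eventually_nhds.2 hev] with y hy
          rcases (hc0 y).lt_or_eq with h3 | h3
          · exact hS3 y h3
          · rcases le_or_gt ‖y‖ 1 with h4 | h4
            · exact (hS4 y h4 h3.symm hy).1
            · refine hy.self_of_nhds.congr_of_eventuallyEq ?_
              have h5 : ∀ᶠ w in 𝓝 y, 1 < ‖w‖ := continuous_norm.continuousAt.eventually
                (lt_mem_nhds h4)
              filter_upwards [h5] with w hw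
              exact hS2 w (hc1 w hw)
        · rw [← he.fderiv, ← h2]
          exact (h1.differentiableAt (by simp)).hasFDerivAt
    · exact LD.congr hx (hoff x hxA)
  · intro z hz
    exact hLD z (by linarith) (hpos z (hcp z (by linarith)))
  · intro x
    by_cases hxA : x ∈ A '' closedBall (0 : E n) 1
    · obtain ⟨z, hz, rfl⟩ := hxA
      rw [mem_closedBall_zero_iff] at hz
      rcases (hc0 z).lt_or_eq with h | h
      · exact AAx.of_LD (hLD z hz (hpos z h))
      · refine ⟨A, z, rfl, hAd z (by rw [mem_closedBall_zero_iff]; linarith), ?_⟩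
        refine (pres hG hc0 hcL hz h.symm (hGA z hz)).congr ?_
        filter_upwards [ball_mem_nhds z one_pos] with y hy
        rw [mem_ball, dist_eq_norm] at hy
        apply hMF
        have := norm_le_norm_add_norm_sub' y z
        linarith
    · exact (hAA x).congr (hoff x hxA)

end Pool.Agent.Y247.AA
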